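import Pool.Agent.H44.MS.Basics

/-!
# Microsquares, module B2a: the identity for the square of the middle part
-/

set_option autoImplicit false

namespace Pool.Agent.H4.MS

open Finset Real Pool.Agent.H44.MS

theorem four {x1 x2 y1 y2 q : ℕ} (hq : 0 < q) (hx : x1 * x2 = q) (hy : y1 * y2 = q) :
    ∃ g a b c : ℕ, 0 < g ∧ 0 < a ∧ 0 < b ∧ 0 < c ∧ Nat.Coprime a b ∧ x1 = g * a ∧ y1 = g * b ∧
      x2 = b * c ∧ y2 = a * c := by
  have hx1 : 0 < x1 := Nat.pos_of_ne_zero fun h => by rw [h, zero_mul] at hx; omega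
  have hx2 : 0 < x2 := Nat.pos_of_ne_zero fun h => by rw [h, mul_zero] at hx; omega
  have hy1 : 0 < y1 := Nat.pos_of_ne_zero fun h => by rw [h, zero_mul] at hy; omega
  have hy2 : 0 < y2 := Nat.pos_of_ne_zero fun h => by rw [h, mul_zero] at hy; omega
  obtain ⟨a, b, hab, ha, hb⟩ := Nat.exists_coprime x1 y1
  have hg : 0 < Nat.gcd x1 y1 := Nat.gcd_pos_of_pos_left _ hx1
  set g := Nat.gcd x1 y1 with hgd
  have ha0 : 0 < a := Nat.pos_of_ne_zero fun h => by rw [h, zero_mul] at ha; omega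
  have hb0 : 0 < b := Nat.pos_of_ne_zero fun h => by rw [h, zero_mul] at hb; omega
  have h1 : a * x2 = b * y2 := by
    have h2 : g * (a * x2) = g * (b * y2) := by
      calc g * (a * x2) = (a * g) * x2 := by ring
        _ = (b * g) * y2 := by rw [← ha, ← hb, hx, hy]
        _ = g * (b * y2) := by ring
    exact Nat.eq_of_mul_eq_mul_left hg h2
  have h3 : b ∣ x2 := by
    refine hab.symm.dvd_of_dvd_mul_left ?_
    rw [h1]
    exact dvd_mul_right b y2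
  obtain ⟨c, hc⟩ := h3
  have hc0 : 0 < c := Nat.pos_of_ne_zero fun h => by rw [h, mul_zero] at hc; omega
  refine ⟨g, a, b, c, hg, ha0, hb0, hc0, hab, by rw [mul_comm]; exact ha,
    by rw [mul_comm]; exact hb, hc, ?_⟩
  rw [hc] at h1
  have h4 : b * y2 = b * (a * c) := by rw [← h1]; ring
  exact Nat.eq_of_mul_eq_mul_left hb0 h4

/-- the square of the middle part -/
theorem H_sq {z E N q : ℕ} (hz : 2 ≤ z) (hr : Rough z q) (hq : 0 < q) (hqN : q ≤ N) :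
    (∑ x ∈ q.divisorsAntidiagonal, ic (E < x.1 ∧ E < x.2) * chi x.1) ^ 2 =
      ∑ t ∈ Icc 1 N ×ˢ (Icc 1 N ×ˢ (Icc 1 N ×ˢ Icc 1 N)),
        ic (t.1 * t.2.1 * t.2.2.1 * t.2.2.2 = q) *
        (ic (Nat.Coprime t.2.1 t.2.2.1 ∧ E < t.1 * t.2.1 ∧ E < t.1 * t.2.2.1 ∧
          E < t.2.2.1 * t.2.2.2 ∧ E < t.2.1 * t.2.2.2) * (chi t.2.1 * chi t.2.2.1)) := by
  classical
  have e1 : ∀ t : ℕ × ℕ × ℕ × ℕ, ic (t.1 * t.2.1 * t.2.2.1 * t.2.2.2 = q) *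
        (ic (Nat.Coprime t.2.1 t.2.2.1 ∧ E < t.1 * t.2.1 ∧ E < t.1 * t.2.2.1 ∧
          E < t.2.2.1 * t.2.2.2 ∧ E < t.2.1 * t.2.2.2) * (chi t.2.1 * chi t.2.2.1)) =
      ic (t.1 * t.2.1 * t.2.2.1 * t.2.2.2 = q ∧ Nat.Coprime t.2.1 t.2.2.1) *
        (ic (E < t.1 * t.2.1 ∧ E < t.1 * t.2.2.1 ∧
          E < t.2.2.1 * t.2.2.2 ∧ E < t.2.1 * t.2.2.2) * (chi t.2.1 * chi t.2.2.1)) := by
    intro t
    rw [ic_and (Nat.Coprime t.2.1 t.2.2.1), ic_and (t.1 * t.2.1 * t.2.2.1 * t.2.2.2 = q)]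
    ring
  rw [sum_congr rfl fun t _ => e1 t]
  conv_rhs => rw [sum_ic_mul]
  rw [sq, sum_mul_sum, ← sum_product']
  refine Finset.sum_nbij'
    (fun p => (Nat.gcd p.1.1 p.2.1, p.1.1 / Nat.gcd p.1.1 p.2.1, p.2.1 / Nat.gcd p.1.1 p.2.1,
      p.1.2 / (p.2.1 / Nat.gcd p.1.1 p.2.1)))
    (fun t => ((t.1 * t.2.1, t.2.2.1 * t.2.2.2), (t.1 * t.2.2.1, t.2.1 * t.2.2.2)))
    ?_ ?_ ?_ ?_ ?_
  · rintro ⟨⟨x1, x2⟩, ⟨y1, y2⟩⟩ hp
    simp only [mem_product, Nat.mem_divisorsAntidiagonal] at hp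
    obtain ⟨g, a, b, c, hg, ha, hb, hc, hab, rfl, rfl, rfl, rfl⟩ := four hq hp.1.1 hp.2.1
    have hgcd : Nat.gcd (g * a) (g * b) = g := by
      rw [Nat.gcd_mul_left, hab, mul_one]
    simp only [hgcd, Nat.mul_div_cancel_left _ hg, Nat.mul_div_cancel_left _ hb, mem_filter,
      mem_product, mem_Icc]
    have hq1 : g * a * b * c = q := by rw [← hp.1.1]; ring
    have b1 : g ≤ q := Nat.le_of_dvd hq ⟨a * b * c, by rw [← hq1]; ring⟩
    have b2 : a ≤ q := Nat.le_of_dvd hq ⟨g * b * c, by rw [← hq1]; ring⟩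
    have b3 : b ≤ q := Nat.le_of_dvd hq ⟨g * a * c, by rw [← hq1]; ring⟩
    have b4 : c ≤ q := Nat.le_of_dvd hq ⟨g * a * b, by rw [← hq1]; ring⟩
    exact ⟨⟨⟨hg, b1.trans hqN⟩, ⟨ha, b2.trans hqN⟩, ⟨hb, b3.trans hqN⟩, ⟨hc, b4.trans hqN⟩⟩,
      hq1, hab⟩
  · rintro ⟨g, a, b, c⟩ ht
    simp only [mem_filter, mem_product, mem_Icc] at ht
    simp only [mem_product, Nat.mem_divisorsAntidiagonal]
    obtain ⟨-, hq1, -⟩ := ht
    exact ⟨⟨by rw [← hq1]; ring, hq.ne'⟩, ⟨by rw [← hq1]; ring, hq.ne'⟩⟩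
  · rintro ⟨⟨x1, x2⟩, ⟨y1, y2⟩⟩ hp
    simp only [mem_product, Nat.mem_divisorsAntidiagonal] at hp
    obtain ⟨g, a, b, c, hg, ha, hb, hc, hab, rfl, rfl, rfl, rfl⟩ := four hq hp.1.1 hp.2.1
    have hgcd : Nat.gcd (g * a) (g * b) = g := by
      rw [Nat.gcd_mul_left, hab, mul_one]
    simp only [hgcd, Nat.mul_div_cancel_left _ hg, Nat.mul_div_cancel_left _ hb]
  · rintro ⟨g, a, b, c⟩ ht
    simp only [mem_filter, mem_product, mem_Icc] at ht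
    obtain ⟨⟨hg, ha, hb, hc⟩, hq1, hab⟩ := ht
    have hgcd : Nat.gcd (g * a) (g * b) = g := by
      rw [Nat.gcd_mul_left, hab, mul_one]
    simp only [hgcd, Nat.mul_div_cancel_left _ hg.1, Nat.mul_div_cancel_left _ hb.1]
  · rintro ⟨⟨x1, x2⟩, ⟨y1, y2⟩⟩ hp
    simp only [mem_product, Nat.mem_divisorsAntidiagonal] at hp
    obtain ⟨g, a, b, c, hg, ha, hb, hc, hab, rfl, rfl, rfl, rfl⟩ := four hq hp.1.1 hp.2.1
    have hgcd : Nat.gcd (g * a) (g * b) = g := by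
      rw [Nat.gcd_mul_left, hab, mul_one]
    simp only [hgcd, Nat.mul_div_cancel_left _ hg, Nat.mul_div_cancel_left _ hb]
    have hgr : Rough z g := rough_dvd hr ⟨a * (b * c), by rw [← hp.1.1]; ring⟩
    have hgo := chi_sq_of_odd (odd_of_rough hz hgr)
    rw [chi_mul, chi_mul]
    have e2 : ic (E < g * a ∧ E < g * b ∧ E < b * c ∧ E < a * c) =
        ic (E < g * a ∧ E < b * c) * ic (E < g * b ∧ E < a * c) := by
      rw [← ic_and]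
      exact ic_congr ⟨fun h => ⟨⟨h.1, h.2.2.1⟩, h.2.1, h.2.2.2⟩,
        fun h => ⟨h.1.1, h.2.1, h.1.2, h.2.2⟩⟩
    rw [e2]
    linear_combination (ic (E < g * a ∧ E < b * c) * ic (E < g * b ∧ E < a * c) *
      (chi a * chi b)) * hgo

theorem quad (I : Finset ℕ) (X : ℕ → ℕ → ℕ → ℕ → ℝ) :
    ∑ t ∈ I ×ˢ (I ×ˢ (I ×ˢ I)), X t.1 t.2.1 t.2.2.1 t.2.2.2 =
      ∑ g ∈ I, ∑ a ∈ I, ∑ b ∈ I, ∑ c ∈ I, X g a b c := by
  rw [sum_product]
  refine sum_congr rfl fun g _ => ?_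
  rw [sum_product]
  refine sum_congr rfl fun a _ => ?_
  rw [sum_product]

theorem pf_B2a (h : T_FA) : T_B2a := by
  classical
  intro z E N hz
  have h1 := h z N (fun q : ℕ => (∑ x ∈ q.divisorsAntidiagonal,
      ic (E < x.1 ∧ E < x.2) * chi x.1) ^ 2)
  refine Eq.trans ?_ (h1.trans ?_)
  · rfl
  unfold QS
  refine sum_congr rfl fun s₀ hs₀ => ?_
  rw [mem_Icc] at hs₀
  rw [← quad (Icc 1 N) (fun g a b c => ic ((Smooth z s₀ ∧ Good 0 z s₀) ∧ Rough z g ∧ Rough z a ∧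
    Rough z b ∧ Rough z c ∧ s₀ * (g * a * b * c) ≤ N) * (ic (Nat.Coprime a b ∧ E < g * a ∧
    E < g * b ∧ E < b * c ∧ E < a * c) * (chi a * chi b)))]
  have hM : ∀ q ∈ Icc 1 (N / s₀), ic (Rough z q) * (∑ x ∈ q.divisorsAntidiagonal,
      ic (E < x.1 ∧ E < x.2) * chi x.1) ^ 2 = 
      ∑ t ∈ Icc 1 N ×ˢ (Icc 1 N ×ˢ (Icc 1 N ×ˢ Icc 1 N)),
        (ic (Rough z q) * ic (t.1 * t.2.1 * t.2.2.1 * t.2.2.2 = q)) *
        (ic (Nat.Coprime t.2.1 t.2.2.1 ∧ E < t.1 * t.2.1 ∧ E < t.1 * t.2.2.1 ∧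
          E < t.2.2.1 * t.2.2.2 ∧ E < t.2.1 * t.2.2.2) * (chi t.2.1 * chi t.2.2.1)) := by
    intro q hq
    rw [mem_Icc] at hq
    by_cases hr : Rough z q
    · rw [H_sq hz hr hq.1 (hq.2.trans (Nat.div_le_self _ _)), mul_sum]
      refine sum_congr rfl fun t _ => ?_
      ring
    · rw [ic_neg hr, zero_mul]
      symm
      refine sum_eq_zero fun t _ => ?_
      rw [zero_mul, zero_mul]
  rw [sum_congr rfl hM, sum_comm, mul_sum]
  refine sum_congr rfl fun t ht => ?_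
  simp only [mem_product, mem_Icc] at ht
  rw [← sum_mul, ← mul_assoc]
  congr 1
  have h2 : ∑ q ∈ Icc 1 (N / s₀), ic (Rough z q) * ic (t.1 * t.2.1 * t.2.2.1 * t.2.2.2 = q) =
      ic (Rough z (t.1 * t.2.1 * t.2.2.1 * t.2.2.2)) *
        ic (t.1 * t.2.1 * t.2.2.1 * t.2.2.2 ≤ N / s₀) := by
    by_cases hle : t.1 * t.2.1 * t.2.2.1 * t.2.2.2 ≤ N / s₀
    · rw [sum_eq_single (t.1 * t.2.1 * t.2.2.1 * t.2.2.2)]
      · rw [ic_pos rfl, ic_pos hle]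
      · intro q _ hq
        rw [ic_neg (Ne.symm hq), mul_zero]
      · intro hn
        exfalso
        apply hn
        rw [mem_Icc]
        refine ⟨?_, hle⟩
        exact Nat.mul_pos (Nat.mul_pos (Nat.mul_pos ht.1.1 ht.2.1.1) ht.2.2.1.1) ht.2.2.2.1
    · rw [ic_neg hle, mul_zero]
      refine sum_eq_zero fun q hq => ?_
      rw [mem_Icc] at hq
      have hne : ¬ t.1 * t.2.1 * t.2.2.1 * t.2.2.2 = q := fun h => hle (by rw [h]; exact hq.2)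
      rw [ic_neg hne, mul_zero]
  rw [h2, ← ic_and, ← ic_and]
  refine ic_congr ?_
  rw [rough_mul, rough_mul, rough_mul, Nat.le_div_iff_mul_le hs₀.1]
  rw [mul_comm s₀]
  tauto

end Pool.Agent.H4.MS
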