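import Pool.Agent.H44.MS.Basics

/-!
# Microsquares, module B2b: the part with small `a` and `b`
-/

set_option autoImplicit false

namespace Pool.Agent.H4.MS

open Finset Real Pool.Agent.H44.MS

theorem cnt_le (z N X : ℕ) : ∑ s₀ ∈ Icc 1 N, ∑ c ∈ Icc 1 N,
    ic ((Smooth z s₀ ∧ Good 0 z s₀) ∧ Rough z c ∧ s₀ * c ≤ X) ≤
      ∑ m ∈ Icc 1 X, ic (Good 0 z m) := by
  classical
  rw [← sum_product' (Icc 1 N) (Icc 1 N) (fun s₀ c =>
    ic ((Smooth z s₀ ∧ Good 0 z s₀) ∧ Rough z c ∧ s₀ * c ≤ X)), sum_ic, sum_ic]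
  have h : ((Icc 1 N ×ˢ Icc 1 N).filter (fun x : ℕ × ℕ => (Smooth z x.1 ∧ Good 0 z x.1) ∧
      Rough z x.2 ∧ x.1 * x.2 ≤ X)).card ≤ ((Icc 1 X).filter (fun m => Good 0 z m)).card := by
    refine card_le_card_of_injOn (fun p => p.1 * p.2) ?_ ?_
    · rintro ⟨s, c⟩ hp
      simp only [coe_filter, mem_product, mem_Icc, Set.mem_setOf_eq] at hp ⊢
      obtain ⟨⟨hs, hc⟩, ⟨h1, h2⟩, h3, h4⟩ := hp
      exact ⟨⟨Nat.mul_pos hs.1 hc.1, h4⟩, (good_mul _ _ _ _).2 ⟨h2, good_of_rough h3⟩⟩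
    · rintro ⟨s, c⟩ hp ⟨s', c'⟩ hp' he
      simp only [coe_filter, mem_product, mem_Icc, Set.mem_setOf_eq] at hp hp' he
      obtain ⟨⟨hs, hc⟩, ⟨h1, h2⟩, h3, h4⟩ := hp
      obtain ⟨⟨hs', hc'⟩, ⟨h1', h2'⟩, h3', h4'⟩ := hp'
      have e1 := sp_rp_of_mul h1 h3 hs.1 hc.1
      have e2 := sp_rp_of_mul h1' h3' hs'.1 hc'.1
      rw [he] at e1
      rw [Prod.mk.injEq]
      exact ⟨e1.1.symm.trans e2.1, e1.2.symm.trans e2.2⟩
  exact_mod_cast h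

theorem sum_sub_le (s t : Finset ℕ) (P : ℕ → Prop) (f : ℕ → ℝ) (h : ∀ a ∈ s, P a → a ∈ t)
    (hf : ∀ a, 0 ≤ f a) : ∑ a ∈ s, ic (P a) * f a ≤ ∑ a ∈ t, f a := by
  classical
  rw [sum_ic_mul]
  refine sum_le_sum_of_subset_of_nonneg ?_ fun a _ _ => hf a
  intro a ha
  rw [mem_filter] at ha
  exact h a ha.1 ha.2

/-- the main reduction -/
theorem red {z E N A₀ : ℕ} (hz : 2 ≤ z) (hA : 8 ≤ A₀) (hAz : A₀ * z ≤ E) (hE : E ^ 2 ≤ N)
    {C : ℝ} (hC : 0 < C)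
    (hGV : ∀ X : ℕ, z ≤ X → ∑ m ∈ Icc 1 X, ic (Good 0 z m) ≤ C * X / √(Real.log z)) :
    QS z N (fun g a b c => ic (a ≤ A₀ ∧ b ≤ A₀ ∧ E < g * a ∧ E < g * b ∧ E < b * c ∧
        E < a * c)) ≤ (C * N / √(Real.log z)) *
      ((∑ g ∈ Ioc (E / A₀) (N / E), ic (Rough z g) / g) *
        ((∑ a ∈ Icc 1 A₀, ic (Rough z a) / a) * (∑ b ∈ Icc 1 A₀, ic (Rough z b) / b))) := by
  classical
  have hE0 : 0 < E := by
    have : 0 < A₀ * z := Nat.mul_pos (by omega) (by omega)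
    omega
  have hA0 : 0 < A₀ := by omega
  have hD : 0 ≤ C * N / √(Real.log z) := by positivity
  set D := C * N / √(Real.log z) with hDd
  -- the bound of a term
  have hterm : ∀ s₀ g a b c : ℕ, 0 < s₀ → 0 < g → 0 < a → 0 < b → 0 < c →
      ic ((Smooth z s₀ ∧ Good 0 z s₀) ∧ Rough z g ∧ Rough z a ∧ Rough z b ∧ Rough z c ∧
        s₀ * (g * a * b * c) ≤ N) * ic (a ≤ A₀ ∧ b ≤ A₀ ∧ E < g * a ∧ E < g * b ∧ E < b * c ∧
        E < a * c) ≤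
      (ic (g ∈ Ioc (E / A₀) (N / E)) * ic (Rough z g)) * ((ic (a ∈ Icc 1 A₀) * ic (Rough z a)) *
        ((ic (b ∈ Icc 1 A₀) * ic (Rough z b)) * (ic (z ≤ N / (g * a * b)) *
        ic ((Smooth z s₀ ∧ Good 0 z s₀) ∧ Rough z c ∧ s₀ * c ≤ N / (g * a * b))))) := by
    intro s₀ g a b c hs hg ha hb hc
    simp only [← ic_and]
    refine ic_mono ?_
    rintro ⟨⟨hS, hrg, hra, hrb, hrc, hN⟩, haA, hbA, h1, h2, h3, h4⟩
    have hgab : 0 < g * a * b := Nat.mul_pos (Nat.mul_pos hg ha) hb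
    have hg1 : E / A₀ < g := by
      rw [Nat.div_lt_iff_lt_mul hA0]
      exact h1.trans_le (Nat.mul_le_mul_left g haA)
    have hc1 : E / A₀ < c := by
      rw [Nat.div_lt_iff_lt_mul hA0]
      refine h3.trans_le ?_
      rw [mul_comm b c]
      exact Nat.mul_le_mul_left c hbA
    have hg2 : g ≤ N / E := by
      rw [Nat.le_div_iff_mul_le hE0]
      calc g * E ≤ g * (b * c) := Nat.mul_le_mul_left g h3.le
        _ ≤ a * (g * (b * c)) := Nat.le_mul_of_pos_left _ ha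
        _ = g * a * b * c := by ring
        _ ≤ s₀ * (g * a * b * c) := Nat.le_mul_of_pos_left _ hs
        _ ≤ N := hN
    have hsc : s₀ * c ≤ N / (g * a * b) := by
      rw [Nat.le_div_iff_mul_le hgab]
      calc s₀ * c * (g * a * b) = s₀ * (g * a * b * c) := by ring
        _ ≤ N := hN
    have hzc : z ≤ c := by
      have : z ≤ E / A₀ := by
        rw [Nat.le_div_iff_mul_le hA0, mul_comm]
        exact hAz
      omega
    have hzN : z ≤ N / (g * a * b) := (hzc.trans (Nat.le_mul_of_pos_left c hs)).trans hsc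
    refine ⟨⟨?_, hrg⟩, ⟨?_, hra⟩, ⟨?_, hrb⟩, hzN, hS, hrc, hsc⟩
    · rw [mem_Ioc]; exact ⟨hg1, hg2⟩
    · rw [mem_Icc]; exact ⟨ha, haA⟩
    · rw [mem_Icc]; exact ⟨hb, hbA⟩
  -- the inner sum
  have hinner : ∀ g a b : ℕ, 0 < g → 0 < a → 0 < b →
      ic (z ≤ N / (g * a * b)) * ∑ s₀ ∈ Icc 1 N, ∑ c ∈ Icc 1 N,
        ic ((Smooth z s₀ ∧ Good 0 z s₀) ∧ Rough z c ∧ s₀ * c ≤ N / (g * a * b)) ≤
      D * (1 / g * (1 / a * (1 / b))) := by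
    intro g a b hg ha hb
    by_cases hzX : z ≤ N / (g * a * b)
    · rw [ic_pos hzX, one_mul]
      refine (cnt_le z N (N / (g * a * b))).trans ((hGV _ hzX).trans ?_)
      have h1 : ((N / (g * a * b) : ℕ) : ℝ) ≤ (N : ℝ) / (g * a * b) := by
        have := @Nat.cast_div_le ℝ _ _ _ N (g * a * b)
        push_cast at this
        exact this
      have hg' : (0 : ℝ) < g := by exact_mod_cast hg
      have ha' : (0 : ℝ) < a := by exact_mod_cast ha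
      have hb' : (0 : ℝ) < b := by exact_mod_cast hb
      calc C * ((N / (g * a * b) : ℕ) : ℝ) / √(Real.log z)
          ≤ C * ((N : ℝ) / (g * a * b)) / √(Real.log z) := by gcongr
        _ = D * (1 / g * (1 / a * (1 / b))) := by
          rw [hDd]
          field_simp
    · rw [ic_neg hzX, zero_mul]
      positivity
  unfold QS
  have h1 : ∑ s₀ ∈ Icc 1 N, ∑ g ∈ Icc 1 N, ∑ a ∈ Icc 1 N, ∑ b ∈ Icc 1 N, ∑ c ∈ Icc 1 N,
      ic ((Smooth z s₀ ∧ Good 0 z s₀) ∧ Rough z g ∧ Rough z a ∧ Rough z b ∧ Rough z c ∧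
        s₀ * (g * a * b * c) ≤ N) * ic (a ≤ A₀ ∧ b ≤ A₀ ∧ E < g * a ∧ E < g * b ∧ E < b * c ∧
        E < a * c) ≤
      ∑ s₀ ∈ Icc 1 N, ∑ g ∈ Icc 1 N, ∑ a ∈ Icc 1 N, ∑ b ∈ Icc 1 N, ∑ c ∈ Icc 1 N,
      (ic (g ∈ Ioc (E / A₀) (N / E)) * ic (Rough z g)) * ((ic (a ∈ Icc 1 A₀) * ic (Rough z a)) *
        ((ic (b ∈ Icc 1 A₀) * ic (Rough z b)) * (ic (z ≤ N / (g * a * b)) *
        ic ((Smooth z s₀ ∧ Good 0 z s₀) ∧ Rough z c ∧ s₀ * c ≤ N / (g * a * b))))) := by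
    refine sum_le_sum fun s₀ hs => sum_le_sum fun g hg => sum_le_sum fun a ha =>
      sum_le_sum fun b hb => sum_le_sum fun c hc => ?_
    exact hterm s₀ g a b c (mem_Icc.1 hs).1 (mem_Icc.1 hg).1 (mem_Icc.1 ha).1 (mem_Icc.1 hb).1
      (mem_Icc.1 hc).1
  refine h1.trans ?_
  -- exchange
  have h2 : ∑ s₀ ∈ Icc 1 N, ∑ g ∈ Icc 1 N, ∑ a ∈ Icc 1 N, ∑ b ∈ Icc 1 N, ∑ c ∈ Icc 1 N,
      (ic (g ∈ Ioc (E / A₀) (N / E)) * ic (Rough z g)) * ((ic (a ∈ Icc 1 A₀) * ic (Rough z a)) *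
        ((ic (b ∈ Icc 1 A₀) * ic (Rough z b)) * (ic (z ≤ N / (g * a * b)) *
        ic ((Smooth z s₀ ∧ Good 0 z s₀) ∧ Rough z c ∧ s₀ * c ≤ N / (g * a * b))))) =
      ∑ g ∈ Icc 1 N, ∑ a ∈ Icc 1 N, ∑ b ∈ Icc 1 N, 
      (ic (g ∈ Ioc (E / A₀) (N / E)) * ic (Rough z g)) * ((ic (a ∈ Icc 1 A₀) * ic (Rough z a)) *
        ((ic (b ∈ Icc 1 A₀) * ic (Rough z b)) * (ic (z ≤ N / (g * a * b)) *
        ∑ s₀ ∈ Icc 1 N, ∑ c ∈ Icc 1 N,
        ic ((Smooth z s₀ ∧ Good 0 z s₀) ∧ Rough z c ∧ s₀ * c ≤ N / (g * a * b))))) := by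
    rw [sum_comm]
    refine sum_congr rfl fun g _ => ?_
    rw [sum_comm]
    refine sum_congr rfl fun a _ => ?_
    rw [sum_comm]
    refine sum_congr rfl fun b _ => ?_
    simp only [mul_sum]
  rw [h2]
  have h3 : ∀ g ∈ Icc 1 N, ∀ a ∈ Icc 1 N, ∀ b ∈ Icc 1 N,
      (ic (g ∈ Ioc (E / A₀) (N / E)) * ic (Rough z g)) * ((ic (a ∈ Icc 1 A₀) * ic (Rough z a)) *
        ((ic (b ∈ Icc 1 A₀) * ic (Rough z b)) * (ic (z ≤ N / (g * a * b)) *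
        ∑ s₀ ∈ Icc 1 N, ∑ c ∈ Icc 1 N,
        ic ((Smooth z s₀ ∧ Good 0 z s₀) ∧ Rough z c ∧ s₀ * c ≤ N / (g * a * b))))) ≤
      D * ((ic (g ∈ Ioc (E / A₀) (N / E)) * (ic (Rough z g) / g)) *
        ((ic (a ∈ Icc 1 A₀) * (ic (Rough z a) / a)) *
          (ic (b ∈ Icc 1 A₀) * (ic (Rough z b) / b)))) := by
    intro g hg a ha b hb
    have hi := hinner g a b (mem_Icc.1 hg).1 (mem_Icc.1 ha).1 (mem_Icc.1 hb).1
    have n1 := ic_nonneg (g ∈ Ioc (E / A₀) (N / E))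
    have n2 := ic_nonneg (Rough z g)
    have n3 := ic_nonneg (a ∈ Icc 1 A₀)
    have n4 := ic_nonneg (Rough z a)
    have n5 := ic_nonneg (b ∈ Icc 1 A₀)
    have n6 := ic_nonneg (Rough z b)
    calc _ ≤ (ic (g ∈ Ioc (E / A₀) (N / E)) * ic (Rough z g)) *
          ((ic (a ∈ Icc 1 A₀) * ic (Rough z a)) * ((ic (b ∈ Icc 1 A₀) * ic (Rough z b)) *
            (D * (1 / g * (1 / a * (1 / b)))))) := by
          gcongr
      _ = _ := by ring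
  refine (sum_le_sum fun g hg => sum_le_sum fun a ha => sum_le_sum fun b hb =>
    h3 g hg a ha b hb).trans ?_
  simp only [← mul_sum, ← sum_mul]
  have p1 : ∀ g : ℕ, 0 ≤ ic (Rough z g) / g := fun g =>
    div_nonneg (ic_nonneg _) (Nat.cast_nonneg g)
  have s1 : ∑ g ∈ Icc 1 N, ic (g ∈ Ioc (E / A₀) (N / E)) * (ic (Rough z g) / g) ≤
      ∑ g ∈ Ioc (E / A₀) (N / E), ic (Rough z g) / g :=
    sum_sub_le _ _ _ _ (fun _ _ h => h) p1
  have s2 : ∑ a ∈ Icc 1 N, ic (a ∈ Icc 1 A₀) * (ic (Rough z a) / a) ≤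
      ∑ a ∈ Icc 1 A₀, ic (Rough z a) / a :=
    sum_sub_le _ _ _ _ (fun _ _ h => h) p1
  have t1 : 0 ≤ ∑ g ∈ Ioc (E / A₀) (N / E), ic (Rough z g) / g := sum_nonneg fun g _ => p1 g
  have t2 : 0 ≤ ∑ a ∈ Icc 1 A₀, ic (Rough z a) / a := sum_nonneg fun g _ => p1 g
  have t3 : 0 ≤ ∑ a ∈ Icc 1 N, ic (a ∈ Icc 1 A₀) * (ic (Rough z a) / a) :=
    sum_nonneg fun g _ => mul_nonneg (ic_nonneg _) (p1 g)
  gcongr

theorem pf_B2b (hGV : T_GV) (hRL : T_RL) (hR0 : T_R0) : T_B2b := by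
  obtain ⟨C1, hC1, hG⟩ := hGV
  obtain ⟨C2, hC2, hL⟩ := hRL
  obtain ⟨C3, hC3, hR⟩ := hR0
  refine ⟨C1 * (C2 * (C3 * C3)), by positivity, ?_⟩
  intro z E N A₀ hz hA hAz hE hNA hzA
  have hA0 : 0 < A₀ := by omega
  have hE0 : 0 < E := by
    have : 0 < A₀ * z := Nat.mul_pos (by omega) (by omega)
    omega
  have hN0 : 0 < N := by
    have : 0 < E ^ 2 := by positivity
    omega
  have hGV1 : ∀ X : ℕ, z ≤ X → ∑ m ∈ Icc 1 X, ic (Good 0 z m) ≤ C1 * X / √(Real.log z) := by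
    intro X hX
    have h := hG 1 (by norm_num) (by norm_num) z X hz hX
    simpa only [one_pow, mul_one, sub_self, Real.rpow_zero] using h
  have hmain := red hz hA hAz hE hC1 hGV1
  refine hmain.trans ?_
  -- the three sums
  have hRa := hR z A₀ hz hzA
  have hzx : z ≤ E / A₀ := by
    rw [Nat.le_div_iff_mul_le hA0, mul_comm]
    exact hAz
  have hxX : E / A₀ ≤ N / E := by
    refine (Nat.div_le_self E A₀).trans ?_
    rw [Nat.le_div_iff_mul_le hE0, ← sq]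
    exact hE
  set x : ℕ := E / A₀ with hx
  set X : ℕ := N / E with hX
  have hA' : (8 : ℝ) ≤ A₀ := by exact_mod_cast hA
  have hE' : (0 : ℝ) < E := by exact_mod_cast hE0
  have hN' : (0 : ℝ) < N := by exact_mod_cast hN0
  have hx2 : (2 : ℝ) ≤ x := by exact_mod_cast hz.trans hzx
  have hXr : (X : ℝ) ≤ N / E := Nat.cast_div_le
  have hxr : (E : ℝ) / (2 * A₀) ≤ x := by
    have h1 : (E : ℝ) / A₀ < x + 1 := by
      rw [div_lt_iff₀ (by linarith)]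
      have h2 : E < (x + 1) * A₀ := by
        rw [hx]
        exact (Nat.div_lt_iff_lt_mul hA0).1 (Nat.lt_succ_self _)
      exact_mod_cast h2
    have h3 : (E : ℝ) / (2 * A₀) = (E : ℝ) / A₀ / 2 := by
      rw [div_div, mul_comm]
    rw [h3]
    linarith
  have hX0 : (0 : ℝ) < X := by
    have : (x : ℝ) ≤ X := by exact_mod_cast hxX
    linarith
  have hNA' : (N : ℝ) * A₀ ^ 4 ≤ E ^ 4 := by exact_mod_cast hNA
  have hlog : Real.log X ≤ 3 * Real.log x := by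
    have h1 : (X : ℝ) ≤ x ^ 3 := by
      calc (X : ℝ) ≤ N / E := hXr
        _ ≤ ((E : ℝ) / (2 * A₀)) ^ 3 := by
          rw [div_pow, div_le_div_iff₀ hE' (by positivity)]
          calc (N : ℝ) * (2 * (A₀ : ℝ)) ^ 3 = (N : ℝ) * ((A₀ : ℝ) ^ 3 * 8) := by ring
            _ ≤ (N : ℝ) * ((A₀ : ℝ) ^ 3 * A₀) := by gcongr
            _ = (N : ℝ) * (A₀ : ℝ) ^ 4 := by ring
            _ ≤ (E : ℝ) ^ 4 := hNA'
            _ = (E : ℝ) ^ 3 * E := by ring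
        _ ≤ x ^ 3 := by gcongr
    calc Real.log X ≤ Real.log ((x : ℝ) ^ 3) := Real.log_le_log hX0 h1
      _ = 3 * Real.log x := by rw [Real.log_pow]; norm_num
  have hRg := hL 1 (by norm_num) (by norm_num) z x X hz hzx hxX hlog
  simp only [one_pow, mul_one, sub_self, Real.rpow_zero] at hRg
  have hlz : 0 < Real.log z := Real.log_pos (by exact_mod_cast (by omega : 1 < z))
  have hlog2 : Real.log ((X : ℝ) / x) ≤ Real.log ((N : ℝ) * A₀ ^ 2 / E ^ 2) := by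
    apply Real.log_le_log (by positivity)
    calc (X : ℝ) / x ≤ (N / E) / ((E : ℝ) / (2 * A₀)) := by
          gcongr
      _ = N * (2 * A₀) / E ^ 2 := by
          field_simp
      _ ≤ N * A₀ ^ 2 / E ^ 2 := by
          have : 2 * (A₀ : ℝ) ≤ A₀ ^ 2 := by nlinarith
          gcongr
  have hRg2 : ∑ g ∈ Ioc x X, ic (Rough z g) / g ≤
      C2 * (1 + Real.log ((N : ℝ) * A₀ ^ 2 / E ^ 2) / Real.log z) := by
    refine hRg.trans ?_
    gcongr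
  have p1 : ∀ g : ℕ, 0 ≤ ic (Rough z g) / g := fun g =>
    div_nonneg (ic_nonneg _) (Nat.cast_nonneg g)
  have t1 : 0 ≤ ∑ g ∈ Ioc x X, ic (Rough z g) / g := sum_nonneg fun g _ => p1 g
  have t2 : 0 ≤ ∑ a ∈ Icc 1 A₀, ic (Rough z a) / a := sum_nonneg fun g _ => p1 g
  have t3 : 0 ≤ C2 * (1 + Real.log ((N : ℝ) * A₀ ^ 2 / E ^ 2) / Real.log z) := t1.trans hRg2
  have t4 : 0 ≤ C3 * (Real.log A₀ / Real.log z) := t2.trans hRa
  calc (C1 * N / √(Real.log z)) * ((∑ g ∈ Ioc x X, ic (Rough z g) / g) *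
        ((∑ a ∈ Icc 1 A₀, ic (Rough z a) / a) * (∑ b ∈ Icc 1 A₀, ic (Rough z b) / b)))
      ≤ (C1 * N / √(Real.log z)) *
        ((C2 * (1 + Real.log ((N : ℝ) * A₀ ^ 2 / E ^ 2) / Real.log z)) *
        ((C3 * (Real.log A₀ / Real.log z)) * (C3 * (Real.log A₀ / Real.log z)))) := by
        gcongr
    _ = _ := by ring

end Pool.Agent.H4.MS
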