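import Pool.Agent.H4.MS.BN1

/-!
# Microsquares, module BN: the mean value of the difference is small
-/

set_option autoImplicit false

namespace Pool.Agent.H4.MS

open Finset Real Filter Pool.Agent.H44.MS

section terms

variable {s z E N : ℕ}

/-- first term -/
theorem t1_le (hs : 24 ≤ s) (hz : 2 ≤ z) (h : Par s z E N) {C : ℝ} (hC : 0 < C) :
    C * N / √(Real.log z) * (1 + Real.log ((N : ℝ) / E ^ 2) / Real.log z) *
        (Real.log z / Real.log N) * 2 ^ ⌊140 * Real.log s⌋₊ ≤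
      21 * C * (N / √(Real.log z)) / s := by
  obtain ⟨b1, b2, b3, b4, b5, b6⟩ := log_facts hs hz h
  have hL : 0 < Real.log z := Real.log_pos (by exact_mod_cast (by omega : 1 < z))
  have hs1 : (24 : ℝ) ≤ s := by exact_mod_cast hs
  have hs0 : (0 : ℝ) < s := by linarith
  have hK := (K_facts (s := s) (by omega)).1
  have h1 : 1 + Real.log ((N : ℝ) / E ^ 2) / Real.log z ≤ 21 * s := by
    have : Real.log ((N : ℝ) / E ^ 2) / Real.log z ≤ 8 * s + 12 := by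
      rw [div_le_iff₀ hL]
      exact b3
    linarith
  have h10 : 0 ≤ 1 + Real.log ((N : ℝ) / E ^ 2) / Real.log z := by
    have : 0 ≤ Real.log ((N : ℝ) / E ^ 2) / Real.log z := by
      apply div_nonneg _ hL.le
      refine le_trans ?_ b4
      positivity
    linarith
  have hN : 0 < Real.log N := lt_of_lt_of_le (by positivity) b1
  have h2 : Real.log z / Real.log N ≤ 1 / (s : ℝ) ^ 100 := by
    rw [div_le_div_iff₀ hN (by positivity)]
    linarith
  have hB : 0 ≤ (N : ℝ) / √(Real.log z) := by positivity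
  calc C * N / √(Real.log z) * (1 + Real.log ((N : ℝ) / E ^ 2) / Real.log z) *
        (Real.log z / Real.log N) * 2 ^ ⌊140 * Real.log s⌋₊
      ≤ C * N / √(Real.log z) * (21 * s) * (1 / (s : ℝ) ^ 100) * (s : ℝ) ^ 98 := by
        gcongr
    _ = 21 * C * (N / √(Real.log z)) / s := by
        field_simp

/-- third factor -/
theorem t3_le (hs : 24 ≤ s) (hz : 2 ≤ z) (h : Par s z E N) {C : ℝ} (hC : 0 < C) :
    C * N / √(Real.log z) * (Real.log N / Real.log z) ^ (3 / 10 : ℝ) *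
        (10 / 13 : ℝ) ^ ⌊140 * Real.log s⌋₊ ≤
      4 * C * (N / √(Real.log z)) / s ^ 5 := by
  obtain ⟨b1, b2, b3, b4, b5, b6⟩ := log_facts hs hz h
  have hL : 0 < Real.log z := Real.log_pos (by exact_mod_cast (by omega : 1 < z))
  have hs1 : (24 : ℝ) ≤ s := by exact_mod_cast hs
  have hs0 : (0 : ℝ) < s := by linarith
  have hK := (K_facts (s := s) (by omega)).2
  have hN : 0 < Real.log N := lt_of_lt_of_le (by positivity) b1
  have h1 : (Real.log N / Real.log z) ^ (3 / 10 : ℝ) ≤ 2 * (s : ℝ) ^ 30 := by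
    have h2 : Real.log N / Real.log z ≤ 2 * (s : ℝ) ^ 100 := by
      rw [div_le_iff₀ hL]
      exact b2
    calc (Real.log N / Real.log z) ^ (3 / 10 : ℝ) ≤ (2 * (s : ℝ) ^ 100) ^ (3 / 10 : ℝ) :=
          Real.rpow_le_rpow (by positivity) h2 (by norm_num)
      _ = 2 ^ (3 / 10 : ℝ) * (s : ℝ) ^ 30 := by
          rw [Real.mul_rpow (by norm_num) (by positivity), ← Real.rpow_natCast (s : ℝ) 100,
            ← Real.rpow_mul hs0.le, ← Real.rpow_natCast (s : ℝ) 30]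
          norm_num
      _ ≤ 2 * (s : ℝ) ^ 30 := by
          have : (2 : ℝ) ^ (3 / 10 : ℝ) ≤ 2 ^ (1 : ℝ) :=
            Real.rpow_le_rpow_of_exponent_le (by norm_num) (by norm_num)
          rw [Real.rpow_one] at this
          gcongr
  calc C * N / √(Real.log z) * (Real.log N / Real.log z) ^ (3 / 10 : ℝ) *
        (10 / 13 : ℝ) ^ ⌊140 * Real.log s⌋₊
      ≤ C * N / √(Real.log z) * (2 * (s : ℝ) ^ 30) * (2 / (s : ℝ) ^ 35) := by
        gcongr
    _ = 4 * C * (N / √(Real.log z)) / s ^ 5 := by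
        field_simp
        ring

/-- second factor -/
theorem t2_le (hs : 24 ≤ s) (hz : 2 ≤ z) (h : Par s z E N) {C : ℝ} (hC : 0 < C)
    (hsm : 8 * (s : ℝ) ^ 300 * (2 : ℝ) ^ (-((s : ℝ) / 10)) ≤ 1)
    (hzm : C * (3 * (s : ℝ) ^ 100 * Real.log z) ^ 5 * 2 ≤ z) (hz3 : 3 ≤ z) :
    C * N / √(Real.log z) * ((Real.log ((z ^ s : ℕ) : ℝ) / Real.log z) ^ 2 *
        (1 + Real.log ((N : ℝ) * ((z ^ s : ℕ) : ℝ) ^ 2 / E ^ 2) / Real.log z) +
        (Real.log N / Real.log z) ^ 3 *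
          (2 : ℝ) ^ (-(Real.log ((z ^ s : ℕ) : ℝ) / (10 * Real.log z)))) +
      C * N * (1 + Real.log N) ^ 4 * (1 / z + ((z ^ s : ℕ) : ℝ) ^ (-(1 / 4 : ℝ))) ≤
      25 * (C + 1) * (N / √(Real.log z)) * s ^ 3 := by
  obtain ⟨b1, b2, b3, b4, b5, b6⟩ := log_facts hs hz h
  have hL : 0 < Real.log z := Real.log_pos (by exact_mod_cast (by omega : 1 < z))
  have hL1 : 1 ≤ Real.log z := by
    have h3 : Real.exp 1 ≤ z := by
      have := Real.exp_one_lt_d9
      have : (3 : ℝ) ≤ z := by exact_mod_cast hz3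
      linarith
    have := Real.log_le_log (Real.exp_pos 1) h3
    rwa [Real.log_exp] at this
  have hs1 : (24 : ℝ) ≤ s := by exact_mod_cast hs
  have hs0 : (0 : ℝ) < s := by linarith
  have hz0 : (0 : ℝ) < z := by exact_mod_cast (by omega : 0 < z)
  have hu1 : (1 : ℝ) ≤ (s : ℝ) ^ 100 := one_le_pow₀ (by linarith)
  have hN : 0 < Real.log N := lt_of_lt_of_le (by positivity) b1
  have hlA : Real.log ((z ^ s : ℕ) : ℝ) = s * Real.log z := by
    push_cast
    rw [Real.log_pow]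
  have e1 : Real.log ((z ^ s : ℕ) : ℝ) / Real.log z = s := by
    rw [hlA]
    field_simp
  have e2 : Real.log ((z ^ s : ℕ) : ℝ) / (10 * Real.log z) = s / 10 := by
    rw [hlA]
    field_simp
  have h5 : Real.log ((N : ℝ) * ((z ^ s : ℕ) : ℝ) ^ 2 / E ^ 2) / Real.log z ≤ 10 * s + 12 := by
    rw [div_le_iff₀ hL]
    exact b5
  have h6 : Real.log N / Real.log z ≤ 2 * (s : ℝ) ^ 100 := by
    rw [div_le_iff₀ hL]
    exact b2
  have h60 : 0 ≤ Real.log N / Real.log z := by positivity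
  have h7 : (Real.log N / Real.log z) ^ 3 * (2 : ℝ) ^ (-((s : ℝ) / 10)) ≤ 1 := by
    refine le_trans ?_ hsm
    have : (Real.log N / Real.log z) ^ 3 ≤ (2 * (s : ℝ) ^ 100) ^ 3 := by gcongr
    have e3 : (2 * (s : ℝ) ^ 100) ^ 3 = 8 * (s : ℝ) ^ 300 := by ring
    rw [e3] at this
    gcongr
  rw [e1, e2]
  have h8 : ((z ^ s : ℕ) : ℝ) ^ (-(1 / 4 : ℝ)) ≤ 1 / z := by
    push_cast
    have h9 : (z : ℝ) ^ 4 ≤ (z : ℝ) ^ s :=
      pow_le_pow_right₀ (by exact_mod_cast (by omega : 1 ≤ z)) (by omega)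
    calc ((z : ℝ) ^ s) ^ (-(1 / 4 : ℝ)) ≤ ((z : ℝ) ^ 4) ^ (-(1 / 4 : ℝ)) :=
          Real.rpow_le_rpow_of_nonpos (by positivity) h9 (by norm_num)
      _ = 1 / z := by
          rw [← Real.rpow_natCast (z : ℝ) 4, ← Real.rpow_mul hz0.le]
          norm_num
          rw [Real.rpow_neg_one]
  have h10 : C * N * (1 + Real.log N) ^ 4 * (1 / z + ((z ^ s : ℕ) : ℝ) ^ (-(1 / 4 : ℝ))) ≤
      N / √(Real.log z) := by
    have h11 : 1 + Real.log N ≤ 3 * (s : ℝ) ^ 100 * Real.log z := by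
      nlinarith
    have h12 : √(Real.log z) ≤ 3 * (s : ℝ) ^ 100 * Real.log z := by
      have : √(Real.log z) ≤ Real.log z := by
        rw [Real.sqrt_le_left hL.le]
        nlinarith
      nlinarith
    have h13 : 0 < √(Real.log z) := Real.sqrt_pos.2 hL
    rw [le_div_iff₀ h13]
    calc C * N * (1 + Real.log N) ^ 4 * (1 / z + ((z ^ s : ℕ) : ℝ) ^ (-(1 / 4 : ℝ))) *
          √(Real.log z)
        ≤ C * N * (3 * (s : ℝ) ^ 100 * Real.log z) ^ 4 * (1 / z + 1 / z) *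
          (3 * (s : ℝ) ^ 100 * Real.log z) := by
          gcongr
      _ = N * ((C * (3 * (s : ℝ) ^ 100 * Real.log z) ^ 5 * 2) / z) := by
          ring
      _ ≤ N * 1 := by
          gcongr
          rw [div_le_one hz0]
          exact hzm
      _ = N := mul_one _
  have hB : 0 ≤ (N : ℝ) / √(Real.log z) := by positivity
  have h14 : C * N / √(Real.log z) * ((s : ℝ) ^ 2 *
        (1 + Real.log ((N : ℝ) * ((z ^ s : ℕ) : ℝ) ^ 2 / E ^ 2) / Real.log z) +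
        (Real.log N / Real.log z) ^ 3 * (2 : ℝ) ^ (-((s : ℝ) / 10))) ≤
      24 * C * (N / √(Real.log z)) * s ^ 3 := by
    calc _ ≤ C * N / √(Real.log z) * ((s : ℝ) ^ 2 * (1 + (10 * s + 12)) + 1) := by
          gcongr
      _ = C * (N / √(Real.log z)) * ((s : ℝ) ^ 2 * (1 + (10 * s + 12)) + 1) := by ring
      _ ≤ C * (N / √(Real.log z)) * (24 * s ^ 3) := by
          apply mul_le_mul_of_nonneg_left _ (by positivity)
          nlinarith [mul_pos hs0 hs0, mul_pos (mul_pos hs0 hs0) hs0]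
      _ = _ := by ring
  have hs3 : (1 : ℝ) ≤ (s : ℝ) ^ 3 := one_le_pow₀ (by linarith)
  have h15 : N / √(Real.log z) ≤ N / √(Real.log z) * (s : ℝ) ^ 3 := le_mul_of_one_le_right hB hs3
  have h16 : 0 ≤ C * (N / √(Real.log z)) * (s : ℝ) ^ 3 := by positivity
  nlinarith

/-- the fourth term -/
theorem t4_le (hs : 24 ≤ s) (hz : 2 ≤ z) (h : Par s z E N) {C ε : ℝ} (hC : 0 < C) (hε : 0 < ε)
    (hzε : 1 ≤ ε * z) {N₁ : ℕ} (hN₁ : ε * N ≤ N₁) :
    C * N / √(Real.log z) * (Real.log N / Real.log z) *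
        Real.exp (-(Real.log ((N₁ : ℝ) / E ^ 2) / Real.log z)) ≤
      C * (N / √(Real.log z)) * (2 * (s : ℝ) ^ 100 * Real.exp (-(s : ℝ))) := by
  obtain ⟨b1, b2, b3, b4, b5, b6⟩ := log_facts hs hz h
  obtain ⟨a1, a2, a3, a4, a5, a6, a7, a8, a9⟩ := par_facts hs hz h
  have hL : 0 < Real.log z := Real.log_pos (by exact_mod_cast (by omega : 1 < z))
  have hs1 : (24 : ℝ) ≤ s := by exact_mod_cast hs
  have hz0 : (0 : ℝ) < z := by exact_mod_cast (by omega : 0 < z)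
  have hN : 0 < Real.log N := lt_of_lt_of_le (by positivity) b1
  have hE0 : (0 : ℝ) < E := by exact_mod_cast (by omega : 0 < E)
  have hN0 : (0 : ℝ) < N := by
    have : 0 < N := lt_of_lt_of_le (by positivity) a9
    exact_mod_cast this
  have h6 : Real.log N / Real.log z ≤ 2 * (s : ℝ) ^ 100 := by
    rw [div_le_iff₀ hL]
    exact b2
  have h7 : (s : ℝ) ≤ Real.log ((N₁ : ℝ) / E ^ 2) / Real.log z := by
    rw [le_div_iff₀ hL]
    have h8 : Real.log (ε * ((N : ℝ) / E ^ 2)) ≤ Real.log ((N₁ : ℝ) / E ^ 2) := by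
      apply Real.log_le_log (by positivity)
      rw [← mul_div_assoc]
      gcongr
    rw [Real.log_mul hε.ne' (by positivity)] at h8
    have h9 : 0 ≤ Real.log ε + Real.log z := by
      rw [← Real.log_mul hε.ne' hz0.ne']
      exact Real.log_nonneg hzε
    nlinarith
  calc C * N / √(Real.log z) * (Real.log N / Real.log z) *
        Real.exp (-(Real.log ((N₁ : ℝ) / E ^ 2) / Real.log z))
      ≤ C * N / √(Real.log z) * (2 * (s : ℝ) ^ 100) * Real.exp (-(s : ℝ)) := by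
        gcongr
    _ = _ := by ring

/-- the fifth term -/
theorem t5_le (hs : 24 ≤ s) (hz : 2 ≤ z) (h : Par s z E N) {C Cv V Q : ℝ} (hC : 0 < C)
    (hCv : 0 < Cv) (hQ : 0 ≤ Q) (hV : V ≤ Cv * Q) :
    C * N * (V / 2 ^ s) * (Real.log E / Real.log z) + E * z ^ (4 * s + 5) ≤
      (N * Q) * (C * Cv * (2 * (s : ℝ) ^ 100 / 2 ^ s)) + √N := by
  obtain ⟨b1, b2, b3, b4, b5, b6⟩ := log_facts hs hz h
  obtain ⟨a1, a2, a3, a4, a5, a6, a7, a8, a9⟩ := par_facts hs hz h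
  have hL : 0 < Real.log z := Real.log_pos (by exact_mod_cast (by omega : 1 < z))
  have hE1 : (1 : ℝ) ≤ E := by exact_mod_cast (by omega : 1 ≤ E)
  have h6 : Real.log E / Real.log z ≤ 2 * (s : ℝ) ^ 100 := by
    rw [div_le_iff₀ hL]
    exact b6
  have h60 : 0 ≤ Real.log E / Real.log z := div_nonneg (Real.log_nonneg hE1) hL.le
  apply add_le_add
  · calc C * N * (V / 2 ^ s) * (Real.log E / Real.log z)
        ≤ C * N * (Cv * Q / 2 ^ s) * (Real.log E / Real.log z) := by gcongr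
      _ ≤ C * N * (Cv * Q / 2 ^ s) * (2 * (s : ℝ) ^ 100) := by gcongr
      _ = _ := by ring
  · apply Real.le_sqrt_of_sq_le
    exact_mod_cast a4

end terms

/-- the choice of `s` -/
theorem ex_s (C1 Q C4 C5 ε : ℝ) (hε : 0 < ε) : ∃ S : ℕ, ∀ s : ℕ, S ≤ s →
    21 * C1 / s ≤ ε / 8 ∧ 10 * Q / s ≤ ε / 8 ∧
    C4 * (2 * (s : ℝ) ^ 100 * Real.exp (-(s : ℝ))) ≤ ε / 8 ∧
    2 * (C5 * (2 * (s : ℝ) ^ 100 / 2 ^ s)) ≤ ε / 8 ∧
    8 * (s : ℝ) ^ 300 * (2 : ℝ) ^ (-((s : ℝ) / 10)) ≤ 1 := by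
  have hε8 : 0 < ε / 8 := by positivity
  have l1 : Tendsto (fun s : ℕ => 21 * C1 / (s : ℝ)) atTop (nhds 0) :=
    tendsto_const_div_atTop_nhds_zero_nat _
  have l2 : Tendsto (fun s : ℕ => 10 * Q / (s : ℝ)) atTop (nhds 0) :=
    tendsto_const_div_atTop_nhds_zero_nat _
  have l3 : Tendsto (fun s : ℕ => C4 * (2 * ((s : ℝ) ^ 100 * Real.exp (-(s : ℝ))))) atTop
      (nhds 0) := by
    have h := (Real.tendsto_pow_mul_exp_neg_atTop_nhds_zero 100).comp
      (tendsto_natCast_atTop_atTop (R := ℝ))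
    have h2 := (h.const_mul 2).const_mul C4
    simpa using h2
  have l4 : Tendsto (fun s : ℕ => 2 * (C5 * (2 * ((s : ℝ) ^ 100 / 2 ^ s)))) atTop (nhds 0) := by
    have h := tendsto_pow_const_div_const_pow_of_one_lt 100 (r := (2 : ℝ)) (by norm_num)
    have h2 := ((h.const_mul 2).const_mul C5).const_mul 2
    simpa using h2
  have l5 : Tendsto (fun s : ℕ => 8 * ((s : ℝ) ^ 300 / ((2 : ℝ) ^ (1 / 10 : ℝ)) ^ s)) atTop
      (nhds 0) := by
    have h := tendsto_pow_const_div_const_pow_of_one_lt 300 (r := (2 : ℝ) ^ (1 / 10 : ℝ))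
      (Real.one_lt_rpow (by norm_num) (by norm_num))
    simpa using h.const_mul 8
  have e1 := l1.eventually (ge_mem_nhds hε8)
  have e2 := l2.eventually (ge_mem_nhds hε8)
  have e3 := l3.eventually (ge_mem_nhds hε8)
  have e4 := l4.eventually (ge_mem_nhds hε8)
  have e5 := l5.eventually (ge_mem_nhds (zero_lt_one (α := ℝ)))
  have hall := e1.and (e2.and (e3.and (e4.and e5)))
  rw [eventually_atTop] at hall
  obtain ⟨S, hS⟩ := hall
  refine ⟨S, fun s hs => ?_⟩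
  obtain ⟨f1, f2, f3, f4, f5⟩ := hS s hs
  refine ⟨f1, f2, ?_, ?_, ?_⟩
  · calc _ = C4 * (2 * ((s : ℝ) ^ 100 * Real.exp (-(s : ℝ)))) := by ring
      _ ≤ _ := f3
  · calc _ = 2 * (C5 * (2 * ((s : ℝ) ^ 100 / 2 ^ s))) := by ring
      _ ≤ _ := f4
  · refine le_trans (le_of_eq ?_) f5
    rw [mul_assoc, ← Real.rpow_natCast ((2 : ℝ) ^ (1 / 10 : ℝ)) s, ← Real.rpow_mul (by norm_num),
      Real.rpow_neg (by norm_num), div_eq_mul_inv]
    congr 4
    ring

/-- the choice of `z` -/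
theorem ex_z (C M ε : ℝ) (hε : 0 < ε) : ∃ Z : ℕ, ∀ z : ℕ, Z ≤ z →
    C * (M * Real.log z) ^ 5 * 2 ≤ z ∧ 1 ≤ ε * z ∧ 100 ≤ z ∧ 16 * √(Real.log z) ≤ ε * z := by
  have h0 : Tendsto (fun z : ℕ => (z : ℝ)) atTop atTop := tendsto_natCast_atTop_atTop
  have h1 := (Real.isLittleO_pow_log_id_atTop (n := 5)).comp_tendsto h0
  have h2 := h1.bound (c := 1 / (|C * M ^ 5 * 2| + 1)) (by positivity)
  have h3 := (Real.isLittleO_pow_log_id_atTop (n := 1)).comp_tendsto h0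
  have h4 := h3.bound (c := ε / 16) (by positivity)
  have h5 := h0.eventually_ge_atTop (1 / ε)
  have h6 : ∀ᶠ z : ℕ in atTop, 100 ≤ z := eventually_ge_atTop 100
  have hall := h2.and (h4.and (h5.and h6))
  rw [eventually_atTop] at hall
  obtain ⟨Z, hZ⟩ := hall
  refine ⟨Z, fun z hz => ?_⟩
  obtain ⟨f2, f4, f5, f6⟩ := hZ z hz
  simp only [Function.comp_apply, id, Real.norm_eq_abs, pow_one] at f2 f4
  have hz0 : (0 : ℝ) ≤ z := Nat.cast_nonneg z
  rw [abs_of_nonneg hz0] at f2 f4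
  have hz3 : (100 : ℝ) ≤ z := by exact_mod_cast f6
  have hL1 : 1 ≤ Real.log z := by
    have h3 : Real.exp 1 ≤ z := by
      have := Real.exp_one_lt_d9
      linarith
    have := Real.log_le_log (Real.exp_pos 1) h3
    rwa [Real.log_exp] at this
  refine ⟨?_, ?_, f6, ?_⟩
  · have h7 : |Real.log z ^ 5| * (|C * M ^ 5 * 2| + 1) ≤ z := by
      calc |Real.log z ^ 5| * (|C * M ^ 5 * 2| + 1)
          ≤ (1 / (|C * M ^ 5 * 2| + 1) * (z : ℝ)) * (|C * M ^ 5 * 2| + 1) := by gcongr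
        _ = (z : ℝ) := by field_simp
    calc C * (M * Real.log z) ^ 5 * 2 = (C * M ^ 5 * 2) * Real.log z ^ 5 := by ring
      _ ≤ |(C * M ^ 5 * 2) * Real.log z ^ 5| := le_abs_self _
      _ = |Real.log z ^ 5| * |C * M ^ 5 * 2| := by rw [abs_mul, mul_comm]
      _ ≤ |Real.log z ^ 5| * (|C * M ^ 5 * 2| + 1) := by gcongr; linarith
      _ ≤ z := h7
  · rw [div_le_iff₀ hε] at f5
    linarith
  · rw [abs_of_nonneg (by linarith)] at f4
    have h8 : √(Real.log z) ≤ Real.log z := by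
      rw [Real.sqrt_le_left (by linarith)]
      nlinarith
    linarith

theorem pf_BN (hB1 : T_B1) (hB2 : T_B2) (hB3 : T_B3) (hB4 : T_B4) (hB5 : T_B5) (hBB : T_BB)
    (hVV : T_VV) : T_BN := by
  obtain ⟨C1, hC1, h1⟩ := hB1
  obtain ⟨C2, hC2, h2⟩ := hB2
  obtain ⟨C3, hC3, h3⟩ := hB3
  obtain ⟨C4, hC4, h4⟩ := hB4
  obtain ⟨C5, hC5, S5, h5⟩ := hB5
  obtain ⟨_, Cv, _, hCv, hv⟩ := hVV
  intro ε hε
  obtain ⟨S, hS⟩ := ex_s C1 (√(C3 * (C2 + 1))) C4 (C5 * Cv) ε hε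
  refine ⟨max (max S S5) 24, fun s hs => ?_⟩
  have hsS : S ≤ s := by omega
  have hsS5 : S5 ≤ s := by omega
  have hs24 : 24 ≤ s := by omega
  obtain ⟨s1, s2, s3, s4, s5⟩ := hS s hsS
  obtain ⟨Z, hZ⟩ := ex_z C2 (3 * (s : ℝ) ^ 100) ε hε
  refine ⟨Z, fun z hz y E N N₁ hy hyz hP hN₁ => ?_⟩
  obtain ⟨z1, z2, z3, z4⟩ := hZ z hz
  have hz2 : 2 ≤ z := by omega
  obtain ⟨a1, a2, a3, a4, a5, a6, a7, a8, a9⟩ := par_facts hs24 hz2 hP
  have hzN : z ≤ N := by
    have : z ≤ z ^ 2 := by nlinarith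
    omega
  have hN0' : 0 < N := by omega
  have hN0 : (0 : ℝ) < N := by exact_mod_cast hN0'
  have hz0 : (0 : ℝ) < z := by exact_mod_cast (by omega : 0 < z)
  have hL : 0 < Real.log z := Real.log_pos (by exact_mod_cast (by omega : 1 < z))
  have hLs : 0 < √(Real.log z) := Real.sqrt_pos.2 hL
  have hs1 : (24 : ℝ) ≤ s := by exact_mod_cast hs24
  have hs0 : (0 : ℝ) < s := by linarith
  have hy1 : 1 ≤ Real.log y := by
    have h3 : Real.exp 1 ≤ y := by
      have := Real.exp_one_lt_d9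
      have : (3 : ℝ) ≤ y := by exact_mod_cast hy
      linarith
    have := Real.log_le_log (Real.exp_pos 1) h3
    rwa [Real.log_exp] at this
  set K := ⌊140 * Real.log s⌋₊ with hK
  have hB := hBB y s z E N₁ N K hz2
  set B : ℝ := N / √(Real.log z) with hBd
  have hB0 : 0 < B := by positivity
  -- the main quantity
  have hBQ : B ≤ N * √(Real.log y / Real.log z) := by
    rw [Real.sqrt_div (by linarith), hBd, ← mul_div_assoc]
    gcongr
    refine le_mul_of_one_le_right hN0.le ?_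
    rw [Real.one_le_sqrt]
    exact hy1
  -- term 1
  have r1 := (h1 z E N K hz2 a5 a2 a6).trans (t1_le hs24 hz2 hP hC1)
  have r1' : ∑ m ∈ Icc 1 N, ic (Good 0 z m ∧ Om z m ≤ K) * mdc z E m ≤ ε / 8 * B := by
    refine r1.trans ?_
    calc 21 * C1 * B / s = (21 * C1 / s) * B := by ring
      _ ≤ _ := by gcongr
  -- term 2
  have r3 := (h3 z N K hz2 hzN).trans (t3_le hs24 hz2 hP hC3)
  have r2 := (h2 z E N (z ^ s) hz2 (Nat.pow_le_pow_right (by omega) hs24) a7 a2 a8).trans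
    (t2_le hs24 hz2 hP hC2 s5 z1 (by omega))
  have r23 : √((∑ m ∈ Icc 1 N, ic (Good 0 z m ∧ K < Om z m)) *
        ∑ m ∈ Icc 1 N, ic (Good 0 z m) * mid z E m ^ 2) ≤ ε / 8 * B := by
    have hn : 0 ≤ ∑ m ∈ Icc 1 N, ic (Good 0 z m ∧ K < Om z m) :=
      sum_nonneg fun m _ => ic_nonneg _
    have hn2 : 0 ≤ ∑ m ∈ Icc 1 N, ic (Good 0 z m) * mid z E m ^ 2 :=
      sum_nonneg fun m _ => mul_nonneg (ic_nonneg _) (sq_nonneg _)
    have h6 : √((∑ m ∈ Icc 1 N, ic (Good 0 z m ∧ K < Om z m)) *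
        ∑ m ∈ Icc 1 N, ic (Good 0 z m) * mid z E m ^ 2) ≤
        10 * √(C3 * (C2 + 1)) * B / s := by
      rw [Real.sqrt_le_left (by positivity)]
      calc _ ≤ (4 * C3 * B / s ^ 5) * (25 * (C2 + 1) * B * s ^ 3) := by
            gcongr
        _ = 100 * (C3 * (C2 + 1)) * B ^ 2 / s ^ 2 := by
            field_simp
            ring
        _ = (10 * √(C3 * (C2 + 1)) * B / s) ^ 2 := by
            have e7 : (10 * √(C3 * (C2 + 1)) * B / s) ^ 2 =
                100 * √(C3 * (C2 + 1)) ^ 2 * B ^ 2 / s ^ 2 := by ring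
            rw [e7, Real.sq_sqrt (by positivity)]
    refine h6.trans ?_
    calc 10 * √(C3 * (C2 + 1)) * B / s = (10 * √(C3 * (C2 + 1)) / s) * B := by ring
      _ ≤ _ := by gcongr
  -- term 3
  have hN₁0 : 0 < N₁ := by
    have : (0 : ℝ) < N₁ := lt_of_lt_of_le (by positivity) hN₁
    exact_mod_cast this
  have r4 := (h4 z E N₁ N z3 hzN hN₁0).trans (t4_le hs24 hz2 hP hC4 hε z2 hN₁)
  have r4' : ∑ m ∈ Ioc N₁ N, ic (Good 0 z m) * |bth z E m| ≤ ε / 8 * B := by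
    refine r4.trans ?_
    calc C4 * B * (2 * (s : ℝ) ^ 100 * Real.exp (-(s : ℝ))) =
          (C4 * (2 * (s : ℝ) ^ 100 * Real.exp (-(s : ℝ)))) * B := by ring
      _ ≤ _ := by gcongr
  -- term 4
  have hvy := (hv y z (by omega) hyz).2
  have r5 := (h5 s hsS5 y z E N hz2 a5).trans
    (t5_le hs24 hz2 hP hC5 hCv (Real.sqrt_nonneg _) hvy)
  have hsq : 2 * √N ≤ ε / 8 * B := by
    have h7 : (z : ℝ) ≤ √N := by
      apply Real.le_sqrt_of_sq_le
      exact_mod_cast a9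
    rw [hBd, ← mul_div_assoc, le_div_iff₀ hLs]
    have h8 : √N * √N = N := Real.mul_self_sqrt hN0.le
    have h9 : 16 * √(Real.log z) ≤ ε * √N := z4.trans (by gcongr)
    nlinarith [Real.sqrt_nonneg (N : ℝ)]
  set Q : ℝ := √(Real.log y / Real.log z) with hQ
  have hQ0 : 0 ≤ Q := Real.sqrt_nonneg _
  have r5' : 2 * ∑ m ∈ Icc 1 N, (th (A3 y) s z m - ic (Good y z m)) * |RE z E m| ≤
      ε / 8 * (N * Q) + ε / 8 * B := by
    have h10 : (N * Q) * (2 * ((C5 * Cv) * (2 * (s : ℝ) ^ 100 / 2 ^ s))) ≤ (N * Q) * (ε / 8) := by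
      gcongr
    nlinarith
  refine hB.trans ?_
  have h11 : ε * N * Q = ε * (N * Q) := by ring
  rw [h11]
  have h12 : 0 ≤ N * Q := by positivity
  have h13 : ε * B ≤ ε * (N * Q) := by gcongr
  nlinarith

end Pool.Agent.H4.MS
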