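import Pool.Agent.H44.MS.Basics

/-!
# Microsquares, module BN, first part: the parameters
-/

set_option autoImplicit false

namespace Pool.Agent.H4.MS

open Finset Real Pool.Agent.H44.MS

theorem s_pow {s : ℕ} (hs : 24 ≤ s) : 24 * s + 34 ≤ s ^ 100 := by
  have h1 : s ^ 3 ≤ s ^ 100 := Nat.pow_le_pow_right (by omega) (by norm_num)
  have h2 : 24 * s + 34 ≤ s ^ 3 := by nlinarith [Nat.mul_le_mul hs hs, Nat.mul_le_mul hs (Nat.mul_le_mul hs hs)]
  exact h2.trans h1

theorem par_facts {s z E N : ℕ} (hs : 24 ≤ s) (hz : 2 ≤ z) (h : Par s z E N) :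
    z ^ (8 * s + 12) ≤ E ∧ E ^ 2 ≤ N ∧ N ≤ 4 * E ^ 2 * (z ^ (4 * s + 5)) ^ 2 ∧
    (E * z ^ (4 * s + 5)) ^ 2 ≤ N ∧ z ≤ E ∧ N ≤ E ^ 3 ∧ z ^ s * z ≤ E ∧
    N * (z ^ s) ^ 4 ≤ E ^ 4 ∧ z ^ 2 ≤ N := by
  obtain ⟨h1, h2, h3⟩ := h
  have hz0 : 0 < z := by omega
  have hu := s_pow hs
  have hN : z ^ (24 * s + 34) ≤ N := (Nat.pow_le_pow_right hz0 hu).trans h1
  set w := z ^ (4 * s + 5) with hw
  have hw0 : 0 < w := by positivity
  have a1 : z ^ (8 * s + 12) ≤ E := by
    rw [h3, Nat.le_div_iff_mul_le hw0, Nat.le_sqrt', hw, ← pow_add, ← pow_mul]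
    refine (Nat.pow_le_pow_right hz0 ?_).trans hN
    omega
  have a4 : (E * w) ^ 2 ≤ N := by
    have h4 : E * w ≤ Nat.sqrt N := by
      rw [h3]
      exact Nat.div_mul_le_self _ _
    exact (Nat.pow_le_pow_left h4 2).trans (Nat.sqrt_le' N)
  have a2 : E ^ 2 ≤ N := by
    refine le_trans ?_ a4
    exact Nat.pow_le_pow_left (Nat.le_mul_of_pos_right _ hw0) 2
  have hE0 : 0 < E := lt_of_lt_of_le (by positivity) a1
  have a3 : N ≤ 4 * E ^ 2 * w ^ 2 := by
    have h5 : Nat.sqrt N < (E + 1) * w := by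
      rw [h3]
      exact (Nat.div_lt_iff_lt_mul hw0).1 (Nat.lt_succ_self _)
    have h6 : N < ((E + 1) * w) ^ 2 := Nat.sqrt_lt'.1 h5
    calc N ≤ ((E + 1) * w) ^ 2 := h6.le
      _ ≤ ((2 * E) * w) ^ 2 := Nat.pow_le_pow_left (Nat.mul_le_mul_right w (by omega)) 2
      _ = 4 * E ^ 2 * w ^ 2 := by ring
  have hz12 : 4 * w ^ 2 ≤ z ^ (8 * s + 12) := by
    rw [hw, ← pow_mul]
    have h7 : z ^ (8 * s + 12) = z ^ 2 * z ^ ((4 * s + 5) * 2) := by
      rw [← pow_add]
      congr 1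
      ring
    rw [h7]
    exact Nat.mul_le_mul_right _ (by nlinarith)
  have a5 : z ≤ E := by
    refine le_trans ?_ a1
    calc z = z ^ 1 := (pow_one z).symm
      _ ≤ _ := Nat.pow_le_pow_right hz0 (by omega)
  have a6 : N ≤ E ^ 3 := by
    calc N ≤ 4 * E ^ 2 * w ^ 2 := a3
      _ = E ^ 2 * (4 * w ^ 2) := by ring
      _ ≤ E ^ 2 * E := Nat.mul_le_mul_left _ (hz12.trans a1)
      _ = E ^ 3 := by ring
  have a7 : z ^ s * z ≤ E := by
    refine le_trans ?_ a1
    rw [← pow_succ]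
    exact Nat.pow_le_pow_right hz0 (by omega)
  have a8 : N * (z ^ s) ^ 4 ≤ E ^ 4 := by
    have h8 : 4 * w ^ 2 * (z ^ s) ^ 4 ≤ E ^ 2 := by
      calc 4 * w ^ 2 * (z ^ s) ^ 4 ≤ z ^ (8 * s + 12) * (z ^ s) ^ 4 := Nat.mul_le_mul_right _ hz12
        _ = z ^ (12 * s + 12) := by
            rw [← pow_mul, ← pow_add]
            congr 1
            ring
        _ ≤ (z ^ (8 * s + 12)) ^ 2 := by
            rw [← pow_mul]
            exact Nat.pow_le_pow_right hz0 (by omega)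
        _ ≤ E ^ 2 := Nat.pow_le_pow_left a1 2
    calc N * (z ^ s) ^ 4 ≤ 4 * E ^ 2 * w ^ 2 * (z ^ s) ^ 4 := Nat.mul_le_mul_right _ a3
      _ = E ^ 2 * (4 * w ^ 2 * (z ^ s) ^ 4) := by ring
      _ ≤ E ^ 2 * E ^ 2 := Nat.mul_le_mul_left _ h8
      _ = E ^ 4 := by ring
  refine ⟨a1, a2, a3, a4, a5, a6, a7, a8, ?_⟩
  exact (Nat.pow_le_pow_right hz0 (by omega)).trans hN

/-- the logarithms of the parameters -/
theorem log_facts {s z E N : ℕ} (hs : 24 ≤ s) (hz : 2 ≤ z) (h : Par s z E N) :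
    (s : ℝ) ^ 100 * Real.log z ≤ Real.log N ∧ Real.log N ≤ 2 * (s : ℝ) ^ 100 * Real.log z ∧
    Real.log ((N : ℝ) / E ^ 2) ≤ (8 * s + 12) * Real.log z ∧
    (8 * s + 10) * Real.log z ≤ Real.log ((N : ℝ) / E ^ 2) ∧
    Real.log ((N : ℝ) * ((z ^ s : ℕ) : ℝ) ^ 2 / E ^ 2) ≤ (10 * s + 12) * Real.log z ∧
    Real.log E ≤ 2 * (s : ℝ) ^ 100 * Real.log z := by
  obtain ⟨a1, a2, a3, a4, a5, a6, a7, a8, a9⟩ := par_facts hs hz h
  obtain ⟨h1, h2, h3⟩ := h
  have hz0 : (0 : ℝ) < z := by exact_mod_cast (by omega : 0 < z)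
  have hE0' : 0 < E := by omega
  have hE0 : (0 : ℝ) < E := by exact_mod_cast hE0'
  have hN0' : 0 < N := lt_of_lt_of_le (by positivity) a9
  have hN0 : (0 : ℝ) < N := by exact_mod_cast hN0'
  have hL : 0 < Real.log z := Real.log_pos (by exact_mod_cast (by omega : 1 < z))
  have hL2 : Real.log 2 ≤ Real.log z := Real.log_le_log (by norm_num) (by exact_mod_cast hz)
  have hu1 : (1 : ℝ) ≤ (s : ℝ) ^ 100 := by
    apply one_le_pow₀
    exact_mod_cast (by omega : 1 ≤ s)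
  have b1 : (s : ℝ) ^ 100 * Real.log z ≤ Real.log N := by
    have h4 : ((z : ℝ) ^ (s ^ 100)) ≤ N := by exact_mod_cast h1
    have h5 := Real.log_le_log (by positivity) h4
    rw [Real.log_pow] at h5
    push_cast at h5
    exact h5
  have b2 : Real.log N ≤ 2 * (s : ℝ) ^ 100 * Real.log z := by
    have h4 : (N : ℝ) ≤ ((z : ℝ) ^ (s ^ 100 + 1)) := by exact_mod_cast h2
    have h5 := Real.log_le_log hN0 h4
    rw [Real.log_pow] at h5
    push_cast at h5
    refine h5.trans ?_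
    apply mul_le_mul_of_nonneg_right _ hL.le
    linarith
  have b3 : Real.log ((N : ℝ) / E ^ 2) ≤ (8 * s + 12) * Real.log z := by
    have h4 : (N : ℝ) / E ^ 2 ≤ 2 ^ 2 * (z : ℝ) ^ ((4 * s + 5) * 2) := by
      rw [div_le_iff₀ (by positivity)]
      have : (N : ℝ) ≤ 4 * E ^ 2 * ((z : ℝ) ^ (4 * s + 5)) ^ 2 := by exact_mod_cast a3
      rw [← pow_mul] at this
      linarith
    have h5 := Real.log_le_log (by positivity) h4
    rw [Real.log_mul (by positivity) (by positivity), Real.log_pow, Real.log_pow] at h5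
    push_cast at h5
    nlinarith
  have b4 : (8 * s + 10) * Real.log z ≤ Real.log ((N : ℝ) / E ^ 2) := by
    have h4 : (z : ℝ) ^ ((4 * s + 5) * 2) ≤ (N : ℝ) / E ^ 2 := by
      rw [le_div_iff₀ (by positivity)]
      have : ((E : ℝ) * (z : ℝ) ^ (4 * s + 5)) ^ 2 ≤ N := by exact_mod_cast a4
      rw [mul_pow, ← pow_mul] at this
      linarith
    have h5 := Real.log_le_log (by positivity) h4
    rw [Real.log_pow] at h5
    push_cast at h5
    nlinarith
  refine ⟨b1, b2, b3, b4, ?_, ?_⟩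
  · have h4 : (N : ℝ) * ((z ^ s : ℕ) : ℝ) ^ 2 / E ^ 2 = ((N : ℝ) / E ^ 2) * (z : ℝ) ^ (s * 2) := by
      push_cast
      rw [← pow_mul]
      ring
    rw [h4, Real.log_mul (by positivity) (by positivity), Real.log_pow]
    push_cast
    nlinarith
  · refine le_trans (Real.log_le_log hE0 ?_) b2
    have : E ≤ E ^ 2 := by nlinarith
    exact_mod_cast this.trans a2

/-- the number of prime factors -/
theorem K_facts {s : ℕ} (hs : 1 ≤ s) : (2 : ℝ) ^ ⌊140 * Real.log s⌋₊ ≤ (s : ℝ) ^ 98 ∧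
    (10 / 13 : ℝ) ^ ⌊140 * Real.log s⌋₊ ≤ 2 / (s : ℝ) ^ 35 := by
  have hs1 : (1 : ℝ) ≤ s := by exact_mod_cast hs
  have hs0 : (0 : ℝ) < s := by linarith
  have hls : 0 ≤ Real.log s := Real.log_nonneg hs1
  set K := ⌊140 * Real.log s⌋₊ with hK
  have hK1 : (K : ℝ) ≤ 140 * Real.log s := Nat.floor_le (by positivity)
  have hK2 : 140 * Real.log s - 1 < K := Nat.sub_one_lt_floor _
  constructor
  · have h1 : (2 : ℝ) ^ K = Real.exp (K * Real.log 2) := by
      rw [mul_comm, Real.exp_mul, Real.exp_log (by norm_num), Real.rpow_natCast]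
    have h2 : (s : ℝ) ^ 98 = Real.exp (98 * Real.log s) := by
      rw [mul_comm, Real.exp_mul, Real.exp_log hs0]
      norm_cast
    rw [h1, h2]
    apply Real.exp_le_exp.2
    have h3 := Real.log_two_lt_d9
    have h4 : 0 < Real.log 2 := Real.log_pos (by norm_num)
    calc (K : ℝ) * Real.log 2 ≤ (140 * Real.log s) * Real.log 2 := by gcongr
      _ ≤ (140 * Real.log s) * 0.7 := by
          apply mul_le_mul_of_nonneg_left _ (by positivity)
          linarith
      _ = 98 * Real.log s := by ring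
  · have h0 : (1 / 4 : ℝ) ≤ Real.log (13 / 10) := by
      have h1 : Real.exp 1 ≤ (13 / 10 : ℝ) ^ 4 := by
        have := Real.exp_one_lt_d9
        norm_num at this ⊢
        linarith
      have h2 := Real.log_le_log (Real.exp_pos 1) h1
      rw [Real.log_exp, Real.log_pow] at h2
      push_cast at h2
      linarith
    have h1 : (10 / 13 : ℝ) ^ K = Real.exp (-(K * Real.log (13 / 10))) := by
      rw [← neg_mul, mul_comm, Real.exp_mul, Real.exp_log (by norm_num), Real.rpow_neg (by norm_num),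
        Real.rpow_natCast, ← inv_pow]
      norm_num
    have h2 : (2 : ℝ) / (s : ℝ) ^ 35 = 2 * Real.exp (-(35 * Real.log s)) := by
      have : (s : ℝ) ^ 35 = Real.exp (35 * Real.log s) := by
        rw [mul_comm, Real.exp_mul, Real.exp_log hs0]
        norm_cast
      rw [this, Real.exp_neg, div_eq_mul_inv]
    rw [h1, h2]
    have h3 : Real.exp (1 / 4) ≤ 2 := by
      have e1 : Real.exp (1 / 4) ≤ Real.exp 1 ^ (1 / 2 : ℝ) := by
        rw [← Real.exp_mul]
        apply Real.exp_le_exp.2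
        norm_num
      have e2 : Real.exp 1 ^ (1 / 2 : ℝ) ≤ 4 ^ (1 / 2 : ℝ) := by
        apply Real.rpow_le_rpow (Real.exp_pos 1).le _ (by norm_num)
        have := Real.exp_one_lt_d9
        linarith
      have e3 : (4 : ℝ) ^ (1 / 2 : ℝ) = 2 := by
        rw [show (4 : ℝ) = 2 ^ (2 : ℝ) by norm_num, ← Real.rpow_mul (by norm_num)]
        norm_num
      linarith
    calc Real.exp (-(K * Real.log (13 / 10))) ≤ Real.exp (1 / 4 - 35 * Real.log s) := by
          apply Real.exp_le_exp.2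
          nlinarith [Nat.cast_nonneg (α := ℝ) K]
      _ = Real.exp (1 / 4) * Real.exp (-(35 * Real.log s)) := by
          rw [sub_eq_add_neg, Real.exp_add]
      _ ≤ 2 * Real.exp (-(35 * Real.log s)) := by
          gcongr

end Pool.Agent.H4.MS
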