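import Pool.Agent.H4.MS.UP1

/-!
# Microsquares, module UP: the upper bound for the least coordinate
-/

set_option autoImplicit false

namespace Pool.Agent.H4.MS

open Finset Real Filter Pool.Agent.H44.MS

/-- splitting into residue classes -/
theorem split_classes (Q N₀ N : ℕ) (hQ : 1 ≤ Q) (P : ℕ → Prop) :
    ∑ n ∈ Ico N₀ N, ic (P n) = ∑ a ∈ range Q, ∑ n ∈ Ico N₀ N, ic (n % Q = a) * ic (P n) := by
  rw [sum_comm]
  refine sum_congr rfl fun n _ => ?_
  rw [← sum_mul]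
  have h : ∑ a ∈ range Q, ic (n % Q = a) = 1 := by
    rw [sum_eq_single (n % Q)]
    · exact ic_pos rfl
    · intro a _ ha
      exact ic_neg fun h => ha h.symm
    · intro hn
      exact absurd (mem_range.2 (Nat.mod_lt n (by omega))) hn
  rw [h, one_mul]

theorem pf_UP (hBN : T_BN) (hVN : T_VN) (hMM : T_MM) (hPAR : T_PAR) (hCL : T_CL)
    (hPS : T_PS) : T_UP := by
  intro ε0 hε0
  set ε : ℝ := min ε0 1 with hεd
  have hε : 0 < ε := lt_min hε0 one_pos
  have hε1 : ε ≤ 1 := min_le_right _ _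
  have hεε : ε ≤ ε0 := min_le_left _ _
  obtain ⟨C1, hC1, S1, h1⟩ := hVN
  obtain ⟨c0, C0, hc0, hC0, S2, U, h2⟩ := hMM
  -- the choice of `y`
  obtain ⟨y, hy, hyC⟩ : ∃ y : ℕ, 3 ≤ y ∧ C1 / √y ≤ ε / 128 := by
    refine ⟨⌈(128 * C1 / ε) ^ 2⌉₊ + 3, by omega, ?_⟩
    have h3 : 128 * C1 / ε ≤ √((⌈(128 * C1 / ε) ^ 2⌉₊ + 3 : ℕ) : ℝ) := by
      apply Real.le_sqrt_of_sq_le
      have := Nat.le_ceil ((128 * C1 / ε) ^ 2)
      push_cast
      linarith
    have h4 : 0 < 128 * C1 / ε := by positivity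
    have h5 : 0 < √((⌈(128 * C1 / ε) ^ 2⌉₊ + 3 : ℕ) : ℝ) := h4.trans_le h3
    rw [div_le_iff₀ h5]
    rw [div_le_iff₀ hε] at h3
    linarith
  obtain ⟨Q, hQ, hQy, hcl⟩ := hCL y hy
  have hQ0 : (0 : ℝ) < Q := by exact_mod_cast hQ
  set ε' : ℝ := min (ε / 16) (c0 * ε / (16 * Q)) with hε'd
  have hε' : 0 < ε' := lt_min (by positivity) (by positivity)
  obtain ⟨S3, h3⟩ := hBN ε' hε'
  obtain ⟨s, hsS1, hsS2, hsS3, hs24, hsU, hsC⟩ : ∃ s : ℕ, S1 ≤ s ∧ S2 ≤ s ∧ S3 ≤ s ∧ 24 ≤ s ∧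
      U ≤ s ∧ C1 / s ≤ ε / 128 := by
    refine ⟨max (max (max S1 S2) (max S3 24)) (max U (⌈128 * C1 / ε⌉₊)), by omega, by omega,
      by omega, by omega, by omega, ?_⟩
    set s := max (max (max S1 S2) (max S3 24)) (max U (⌈128 * C1 / ε⌉₊)) with hs
    have h4 : 128 * C1 / ε ≤ s := by
      refine (Nat.le_ceil _).trans ?_
      exact_mod_cast (le_max_right _ _).trans (le_max_right _ _)
    have h5 : (0 : ℝ) < s := lt_of_lt_of_le (by positivity) h4
    rw [div_le_iff₀ h5]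
    rw [div_le_iff₀ hε] at h4
    linarith
  obtain ⟨Z, hZ⟩ := h3 s hsS3
  obtain ⟨N2a, hVNs⟩ := h1 s hsS1 y Q hy hQ hQy (ε / 128) (by positivity)
  obtain ⟨N2b, hPARs⟩ := hPAR s (max Z y) (by omega)
  obtain ⟨N2c, hNc⟩ := ex_N s Q (by omega) ε hε
  refine ⟨8 * Q * (s : ℝ) ^ 300, ?_, max (max N2a N2b) N2c, fun N hN => ?_⟩
  · have : (0 : ℝ) < s := by exact_mod_cast (by omega : 0 < s)
    positivity
  obtain ⟨z, E, hzZ, hPar⟩ := hPARs N (by omega)
  obtain ⟨hn1, hn2, hn3⟩ := hNc N (by omega)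
  have hyz : y ≤ z := by omega
  have hz2 : 2 ≤ z := by omega
  obtain ⟨a1, -⟩ := par_facts hs24 hz2 hPar
  have hzU : z ^ U ≤ E := (Nat.pow_le_pow_right (by omega) (by omega)).trans a1
  obtain ⟨m1, -, -, -⟩ := h2 s hsS2 y z E (by omega) hyz hzU
  set T := TT s N with hT
  set M := MV y s z E with hM
  set R := √(Real.log y / Real.log z) with hR
  have hN0 : (0 : ℝ) ≤ N := Nat.cast_nonneg N
  have hT0 : 0 < T := by
    rw [hT]
    unfold TT
    have : 0 < s ^ 300 := pow_pos (by omega) _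
    positivity
  have hR0 : 0 < R := by
    apply Real.sqrt_pos.2
    apply div_pos
    · exact Real.log_pos (by exact_mod_cast (by omega : 1 < y))
    · exact Real.log_pos (by exact_mod_cast (by omega : 1 < z))
  have hM0 : 0 < M := lt_of_lt_of_le (by positivity) m1
  set N₀ := ⌊ε * N / 4⌋₊ with hN₀
  have hN₀r : (N₀ : ℝ) ≤ ε * N / 4 := Nat.floor_le (by positivity)
  have hN₀N : N₀ ≤ N := by
    have : (N₀ : ℝ) ≤ N := by
      refine hN₀r.trans ?_
      nlinarith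
    exact_mod_cast this
  set k := (Q * (T + 1)) ^ 2 + 1 with hk
  set N₁ := N₀ - k with hN₁
  have hN₁k : N₁ + k = N₀ := Nat.sub_add_cancel hn2
  have hε'N : ε' * N ≤ N₁ := by
    refine le_trans ?_ hn3
    apply mul_le_mul_of_nonneg_right (min_le_left _ _) hN0
  have hW := hZ z (by omega) y E N N₁ hy hyz hPar hε'N
  set V : ℝ := (C1 / √y + C1 / s + ε / 128) * (N / Q) with hV
  set P : ℕ → Prop := fun n => (n % 4 ≠ 0 ∧ n % 8 ≠ 7) ∧
      ¬ ∃ x₁ x₂ x₃ : ℤ, x₁ ^ 2 + x₂ ^ 2 + x₃ ^ 2 = n ∧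
        |(x₃ : ℝ)| ≤ 8 * Q * (s : ℝ) ^ 300 * √(Real.log n) with hP
  have hV0 : 0 ≤ V := by positivity
  have hbig : ∀ b t : ℕ, b ≤ Q → t ≤ T → (b + Q * t) ≤ Q * (T + 1) := by
    intro b t hb ht
    calc b + Q * t ≤ Q + Q * T := Nat.add_le_add hb (Nat.mul_le_mul_left Q ht)
      _ = Q * (T + 1) := by ring
  have hbig2 : ∀ b t : ℕ, b ≤ Q → t ≤ T → (b + Q * t) ^ 2 < k := by
    intro b t hb ht
    have := Nat.pow_le_pow_left (hbig b t hb ht) 2
    omega
  -- one class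
  have hclass : ∀ a ∈ range Q, ∑ n ∈ Ico N₀ N, ic (n % Q = a) * ic (P n) ≤
      4 * V + 2 * (ε' * N * R) / M := by
    intro a ha
    rw [mem_range] at ha
    by_cases hex : ∃ n ∈ Ico N₀ N, n % Q = a ∧ P n
    · obtain ⟨n₁, hn₁, hn₁a, hn₁P⟩ := hex
      obtain ⟨b, hb, hb2⟩ := hcl n₁ hn₁P.1.1 hn₁P.1.2
      have hlt : ∀ n t : ℕ, n ∈ Ico N₀ N → t ∈ Icc 1 T → (b + Q * t) ^ 2 < n := by
        intro n t hn ht
        rw [mem_Ico] at hn
        rw [mem_Icc] at ht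
        exact lt_of_lt_of_le (hbig2 b t hb ht.2) ((hN₁k ▸ Nat.le_add_left k N₁ : k ≤ N₀).trans hn.1)
      refine class_le (y := y) (Q := Q) (T := T) (z := z) (E := E) (N₁ := N₁) (s := s) (b := b)
        P ?_ ?_ hM0 hT0 ?_ hW ?_
      · intro n t hn hna ht
        exact hb2 n t (by rw [hna, hn₁a]) (hlt n t hn ht)
      · intro t ht
        rw [mem_Icc] at ht
        rw [← hN₁k]
        exact Nat.add_lt_add_left (hbig2 b t hb ht.2) N₁
      · have h4 := hVNs N (by omega) z E a b N₀ hPar hb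
          (lt_of_lt_of_le (hbig2 b T hb le_rfl) (hN₁k ▸ Nat.le_add_left k N₁ : k ≤ N₀)) hN₀N
        rw [Nat.mod_eq_of_lt ha] at h4
        exact h4
      · intro n hn hPn hna t ht
        have hm := hlt n t hn ht
        obtain ⟨p1, p2⟩ := hPS z (n - (b + Q * t) ^ 2) (Nat.sub_pos_of_lt hm)
        by_contra hne
        obtain ⟨α, β, hαβ⟩ := p2 (lt_of_le_of_ne p1 (Ne.symm hne))
        apply hPn.2
        refine ⟨α, β, ((b + Q * t : ℕ) : ℤ), ?_, ?_⟩
        · have h5 : α ^ 2 + β ^ 2 + (b + Q * t) ^ 2 = n := by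
            rw [← hαβ]
            exact Nat.sub_add_cancel hm.le
          exact_mod_cast h5
        · rw [mem_Ico] at hn
          rw [mem_Icc] at ht
          have h6 := hn1 n hn.1
          have h7 : (((b + Q * t : ℕ) : ℤ) : ℝ) = ((b + Q * t : ℕ) : ℝ) := by norm_cast
          rw [h7, abs_of_nonneg (Nat.cast_nonneg _)]
          refine le_trans ?_ h6
          exact_mod_cast hbig b t hb ht.2
    · have h0 : ∑ n ∈ Ico N₀ N, ic (n % Q = a) * ic (P n) = 0 := by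
        refine sum_eq_zero fun n hn => ?_
        rw [← ic_and]
        exact ic_neg fun h => hex ⟨n, hn, h.1, h.2⟩
      rw [h0]
      positivity
  -- all classes
  have hWM : 2 * (ε' * N * R) / M ≤ ε * N / (8 * Q) := by
    have h5 : ε' ≤ c0 * ε / (16 * Q) := min_le_right _ _
    calc 2 * (ε' * N * R) / M ≤ 2 * (ε' * N * R) / (c0 * R) := by gcongr
      _ = 2 * (ε' * N) / c0 := by field_simp
      _ ≤ 2 * (c0 * ε / (16 * Q) * N) / c0 := by gcongr
      _ = ε * N / (8 * Q) := by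
          field_simp
          ring
  have hall : ∑ n ∈ Ico N₀ N, ic (P n) ≤ Q * (4 * V + ε * N / (8 * Q)) := by
    rw [split_classes Q N₀ N hQ P]
    refine (sum_le_sum fun a ha => (hclass a ha).trans (add_le_add_right hWM _)).trans
      (le_of_eq ?_)
    rw [sum_const, card_range, nsmul_eq_mul]
  have hV2 : V ≤ (3 * ε / 128) * (N / Q) := by
    rw [hV]
    apply mul_le_mul_of_nonneg_right _ (by positivity)
    linarith
  have hall2 : (Q : ℝ) * (4 * V + ε * N / (8 * Q)) ≤ 7 / 32 * (ε * N) := by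
    calc (Q : ℝ) * (4 * V + ε * N / (8 * Q))
        ≤ Q * (4 * ((3 * ε / 128) * (N / Q)) + ε * N / (8 * Q)) := by gcongr
      _ = 7 / 32 * (ε * N) := by
          field_simp
          ring
  have hfirst : ∑ n ∈ range N₀, ic (P n) ≤ ε * N / 4 := by
    refine le_trans ?_ hN₀r
    calc ∑ n ∈ range N₀, ic (P n) ≤ ∑ n ∈ range N₀, (1 : ℝ) := sum_le_sum fun n _ => ic_le_one _
      _ = N₀ := by rw [sum_const, card_range, nsmul_eq_mul, mul_one]
  have hsplit : ∑ n ∈ range N, ic (P n) =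
      ∑ n ∈ range N₀, ic (P n) + ∑ n ∈ Ico N₀ N, ic (P n) :=
    (sum_range_add_sum_Ico (fun n => ic (P n)) hN₀N).symm
  have hfin : ∑ n ∈ range N, ic (P n) ≤ ε0 * N := by
    rw [hsplit]
    have h6 : ε * N ≤ ε0 * N := by gcongr
    have h7 : 0 ≤ ε * N := by positivity
    linarith
  exact hfin

end Pool.Agent.H4.MS
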