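import Pool.Agent.H4.MS.BN1

/-!
# Microsquares, module UP, first part: one residue class, and the size of the parameters
-/

set_option autoImplicit false

namespace Pool.Agent.H4.MS

open Finset Real Filter Pool.Agent.H44.MS

/-- a shifted sum -/
theorem shift_le (g : ℕ → ℝ) (hg : ∀ m, 0 ≤ g m) {N₀ N N₁ k : ℕ} (hk : N₁ + k < N₀) :
    ∑ n ∈ Ico N₀ N, g (n - k) ≤ ∑ m ∈ Ioc N₁ N, g m := by
  classical
  have hinj : Set.InjOn (fun n => n - k) (Ico N₀ N : Finset ℕ) := by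
    intro n hn n' hn' h
    simp only [coe_Ico, Set.mem_Ico] at hn hn' h
    omega
  rw [← sum_image (f := g) hinj]
  refine sum_le_sum_of_subset_of_nonneg ?_ fun m _ _ => hg m
  intro m hm
  simp only [mem_image, mem_Ico, mem_Ioc] at hm ⊢
  obtain ⟨n, hn, rfl⟩ := hm
  omega

/-- the exceptional numbers of one residue class -/
theorem class_le {y Q T z E N₀ N N₁ s a b : ℕ} {V W M : ℝ} (P : ℕ → Prop)
    (hcls : ∀ n t : ℕ, n ∈ Ico N₀ N → n % Q = a → t ∈ Icc 1 T → Cls y (n - (b + Q * t) ^ 2))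
    (hzt : ∀ t ∈ Icc 1 T, N₁ + (b + Q * t) ^ 2 < N₀) (hM : 0 < M) (hT : 0 < T)
    (hV : ∑ n ∈ Ico N₀ N, ic (n % Q = a) *
      (∑ t ∈ Icc 1 T, FF y s z E (n - (b + Q * t) ^ 2) - T * M) ^ 2 ≤ V * (T * M) ^ 2)
    (hW : ∑ m ∈ Ioc N₁ N, ic (Cls y m) * |ff z m - FF y s z E m| ≤ W)
    (hP : ∀ n ∈ Ico N₀ N, P n → n % Q = a → ∀ t ∈ Icc 1 T, ff z (n - (b + Q * t) ^ 2) = 0) :
    ∑ n ∈ Ico N₀ N, ic (n % Q = a) * ic (P n) ≤ 4 * V + 2 * W / M := by
  have hT' : (0 : ℝ) < T := by exact_mod_cast hT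
  set D : ℕ → ℝ := fun m => |ff z m - FF y s z E m| with hD
  have hpt : ∀ n ∈ Ico N₀ N, ic (n % Q = a) * ic (P n) ≤
      4 / (T * M) ^ 2 * (ic (n % Q = a) *
        (∑ t ∈ Icc 1 T, FF y s z E (n - (b + Q * t) ^ 2) - T * M) ^ 2) +
      2 / (T * M) * (∑ t ∈ Icc 1 T, ic (n % Q = a) * D (n - (b + Q * t) ^ 2)) := by
    intro n hn
    by_cases ha : n % Q = a
    · rw [ic_pos ha, one_mul, one_mul]
      simp only [one_mul]
      have hY0 : 0 ≤ ∑ t ∈ Icc 1 T, D (n - (b + Q * t) ^ 2) := sum_nonneg fun t _ => abs_nonneg _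
      set X := ∑ t ∈ Icc 1 T, FF y s z E (n - (b + Q * t) ^ 2) - T * M with hX
      set Y := ∑ t ∈ Icc 1 T, D (n - (b + Q * t) ^ 2) with hY
      have hTM : 0 < T * M := mul_pos hT' hM
      have hr : 0 ≤ 4 / (T * M) ^ 2 * X ^ 2 + 2 / (T * M) * Y := by positivity
      by_cases hPn : P n
      · rw [ic_pos hPn]
        have h1 : T * M ≤ |X| + Y := by
          have h2 : ∑ t ∈ Icc 1 T, ff z (n - (b + Q * t) ^ 2) = 0 :=
            sum_eq_zero fun t ht => hP n hn hPn ha t ht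
          have h3 : |∑ t ∈ Icc 1 T, (ff z (n - (b + Q * t) ^ 2) -
              FF y s z E (n - (b + Q * t) ^ 2))| ≤ Y := abs_sum_le_sum_abs _ _
          rw [sum_sub_distrib, h2, zero_sub, abs_neg] at h3
          have h4 := abs_le.1 h3
          have h5 := neg_abs_le X
          have h6 : ∑ t ∈ Icc 1 T, FF y s z E (n - (b + Q * t) ^ 2) = X + T * M := by
            rw [hX]; ring
          rw [h6] at h4
          linarith [h4.2]
        rcases le_total (T * M / 2) |X| with h7 | h7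
        · have h8 : (T * M / 2) ^ 2 ≤ X ^ 2 := by
            rw [← sq_abs X]
            exact pow_le_pow_left₀ (by positivity) h7 2
          have h9 : 1 ≤ 4 / (T * M) ^ 2 * X ^ 2 := by
            calc (1 : ℝ) = 4 / (T * M) ^ 2 * (T * M / 2) ^ 2 := by
                  field_simp
                  norm_num
              _ ≤ _ := by gcongr
          have h10 : 0 ≤ 2 / (T * M) * Y := by positivity
          linarith
        · have h8 : T * M / 2 ≤ Y := by linarith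
          have h9 : 1 ≤ 2 / (T * M) * Y := by
            calc (1 : ℝ) = 2 / (T * M) * (T * M / 2) := by field_simp
              _ ≤ _ := by gcongr
          have h10 : 0 ≤ 4 / (T * M) ^ 2 * X ^ 2 := by positivity
          linarith
      · rw [ic_neg hPn]
        exact hr
    · rw [ic_neg ha]
      simp
  refine (sum_le_sum hpt).trans ?_
  rw [sum_add_distrib, ← mul_sum, ← mul_sum, sum_comm]
  have hW1 : ∀ t ∈ Icc 1 T, ∑ n ∈ Ico N₀ N, ic (n % Q = a) * D (n - (b + Q * t) ^ 2) ≤ W := by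
    intro t ht
    refine le_trans ?_ ((shift_le (fun m => ic (Cls y m) * D m)
      (fun m => mul_nonneg (ic_nonneg _) (abs_nonneg _)) (hzt t ht)).trans hW)
    refine sum_le_sum fun n hn => ?_
    by_cases ha : n % Q = a
    · rw [ic_pos ha, ic_pos (hcls n t hn ha ht)]
    · rw [ic_neg ha, zero_mul]
      exact mul_nonneg (ic_nonneg _) (abs_nonneg _)
  have hW2 : ∑ t ∈ Icc 1 T, ∑ n ∈ Ico N₀ N, ic (n % Q = a) * D (n - (b + Q * t) ^ 2) ≤ T * W := by
    refine (sum_le_sum hW1).trans (le_of_eq ?_)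
    rw [sum_const, Nat.card_Icc, nsmul_eq_mul]
    simp
  calc _ ≤ 4 / (T * M) ^ 2 * (V * (T * M) ^ 2) + 2 / (T * M) * (T * W) := by
        gcongr
    _ = 4 * V + 2 * W / M := by
        field_simp

/-- the size of the number of values -/
theorem TT_le {s N : ℕ} (hs : 1 ≤ s) (hN : 2 ≤ N) :
    (TT s N : ℝ) + 1 ≤ 4 * (s : ℝ) ^ 300 * √(2 * Real.log N) := by
  have hN' : (2 : ℝ) ≤ N := by exact_mod_cast hN
  have hl2 : (1 / 2 : ℝ) ≤ Real.log 2 := by
    have := Real.log_two_gt_d9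
    linarith
  have hlN : (1 / 2 : ℝ) ≤ Real.log N := hl2.trans (Real.log_le_log (by norm_num) hN')
  have hs1 : (1 : ℝ) ≤ (s : ℝ) ^ 300 := one_le_pow₀ (by exact_mod_cast hs)
  have h1 : ((Nat.sqrt (Nat.log 2 N) : ℕ) : ℝ) ≤ √(2 * Real.log N) := by
    refine (Real.nat_sqrt_le_real_sqrt).trans ?_
    apply Real.sqrt_le_sqrt
    have h2 : ((2 : ℝ)) ^ (Nat.log 2 N) ≤ N := by
      exact_mod_cast Nat.pow_log_le_self 2 (by omega)
    have h3 := Real.log_le_log (by positivity) h2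
    rw [Real.log_pow] at h3
    have h4 : (0 : ℝ) ≤ Nat.log 2 N := Nat.cast_nonneg _
    nlinarith
  have h5 : 1 ≤ √(2 * Real.log N) := by
    rw [Real.one_le_sqrt]
    linarith
  unfold TT
  push_cast
  nlinarith

/-- the choice of `N` -/
theorem ex_N (s Q : ℕ) (hs : 1 ≤ s) (ε : ℝ) (hε : 0 < ε) : ∃ N₂ : ℕ, ∀ N : ℕ, N₂ ≤ N →
    (∀ n : ℕ, ⌊ε * N / 4⌋₊ ≤ n → ((Q * (TT s N + 1) : ℕ) : ℝ) ≤
      8 * Q * (s : ℝ) ^ 300 * √(Real.log n)) ∧
    (Q * (TT s N + 1)) ^ 2 + 1 ≤ ⌊ε * N / 4⌋₊ ∧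
    ε / 16 * N ≤ ((⌊ε * N / 4⌋₊ - ((Q * (TT s N + 1)) ^ 2 + 1) : ℕ) : ℝ) := by
  have h0 : Tendsto (fun z : ℕ => (z : ℝ)) atTop atTop := tendsto_natCast_atTop_atTop
  have h1 := (Real.isLittleO_pow_log_id_atTop (n := 1)).comp_tendsto h0
  set c : ℝ := ε / (16 * (32 * Q ^ 2 * (s : ℝ) ^ 600 + 1)) with hc
  have hc0 : 0 < c := by positivity
  have h2 := h1.bound hc0
  have h3 := h0.eventually_ge_atTop ((16 / ε) ^ 2 + 16 / ε + 4)
  have hall := h2.and h3
  rw [eventually_atTop] at hall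
  obtain ⟨N₂, hN₂⟩ := hall
  refine ⟨N₂, fun N hN => ?_⟩
  obtain ⟨f1, f2⟩ := hN₂ N hN
  simp only [Function.comp_apply, id, Real.norm_eq_abs, pow_one] at f1
  have hN0 : (0 : ℝ) ≤ N := Nat.cast_nonneg N
  have hε16 : 0 < 16 / ε := by positivity
  have hsq0 : 0 ≤ (16 / ε) ^ 2 := by positivity
  have hN4 : (4 : ℝ) ≤ N := by linarith
  have hN2 : 2 ≤ N := by
    have : (2 : ℝ) ≤ N := by linarith
    exact_mod_cast this
  have hlN : 0 ≤ Real.log N := Real.log_nonneg (by linarith)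
  rw [abs_of_nonneg hN0, abs_of_nonneg hlN] at f1
  have hT := TT_le hs hN2
  have hs300 : (0 : ℝ) ≤ (s : ℝ) ^ 300 := by positivity
  have hsqrtN : 16 / ε ≤ √N := by
    apply Real.le_sqrt_of_sq_le
    linarith
  have hNN : √N * √N = N := Real.mul_self_sqrt hN0
  have hε2 : 16 ≤ ε * √N := by
    rw [div_le_iff₀ hε] at hsqrtN
    linarith
  have hεN : 16 ≤ ε * N := by
    have : 16 / ε ≤ N := by linarith
    rw [div_le_iff₀ hε] at this
    linarith
  have hfl1 : ε * N / 4 - 1 < ⌊ε * N / 4⌋₊ := Nat.sub_one_lt_floor _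
  have hsN2 : 2 ≤ √N := by
    apply Real.le_sqrt_of_sq_le
    linarith
  -- the lower bound for `N₀`
  have hN₀ : √N ≤ ⌊ε * N / 4⌋₊ := by
    have : 4 * √N ≤ ε * N / 4 := by
      calc 4 * √N = 16 * √N / 4 := by ring
        _ ≤ (ε * √N) * √N / 4 := by gcongr
        _ = ε * N / 4 := by rw [mul_assoc, hNN]
    linarith
  have hQT : ((Q * (TT s N + 1) : ℕ) : ℝ) ≤ Q * (4 * (s : ℝ) ^ 300 * √(2 * Real.log N)) := by
    push_cast
    gcongr
  have hQT2 : (((Q * (TT s N + 1)) ^ 2 : ℕ) : ℝ) ≤ ε * N / 16 := by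
    calc (((Q * (TT s N + 1)) ^ 2 : ℕ) : ℝ) = ((Q * (TT s N + 1) : ℕ) : ℝ) ^ 2 := by push_cast; ring
      _ ≤ (Q * (4 * (s : ℝ) ^ 300 * √(2 * Real.log N))) ^ 2 := by gcongr
      _ = 16 * Q ^ 2 * (s : ℝ) ^ 600 * (√(2 * Real.log N)) ^ 2 := by ring
      _ = 32 * Q ^ 2 * (s : ℝ) ^ 600 * Real.log N := by
          rw [Real.sq_sqrt (by positivity)]
          ring
      _ ≤ (32 * Q ^ 2 * (s : ℝ) ^ 600 + 1) * Real.log N := by
          apply mul_le_mul_of_nonneg_right _ hlN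
          linarith
      _ ≤ (32 * Q ^ 2 * (s : ℝ) ^ 600 + 1) * (c * N) := by gcongr
      _ = ε * N / 16 := by
          rw [hc]
          field_simp
  have hle : (Q * (TT s N + 1)) ^ 2 + 1 ≤ ⌊ε * N / 4⌋₊ := by
    have : (((Q * (TT s N + 1)) ^ 2 + 1 : ℕ) : ℝ) ≤ ⌊ε * N / 4⌋₊ := by
      push_cast at hQT2 ⊢
      linarith
    exact_mod_cast this
  refine ⟨?_, hle, ?_⟩
  · intro n hn
    have hn' : √N ≤ n := hN₀.trans (by exact_mod_cast hn)
    have h5 : Real.log N / 2 ≤ Real.log n := by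
      rw [← Real.log_sqrt hN0]
      exact Real.log_le_log (by linarith) hn'
    have h6 : √(2 * Real.log N) ≤ 2 * √(Real.log n) := by
      rw [Real.sqrt_le_left (by positivity), mul_pow, Real.sq_sqrt (by linarith)]
      linarith
    calc ((Q * (TT s N + 1) : ℕ) : ℝ) ≤ Q * (4 * (s : ℝ) ^ 300 * √(2 * Real.log N)) := hQT
      _ ≤ Q * (4 * (s : ℝ) ^ 300 * (2 * √(Real.log n))) := by gcongr
      _ = 8 * Q * (s : ℝ) ^ 300 * √(Real.log n) := by ring
  · rw [Nat.cast_sub hle]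
    push_cast at hQT2 ⊢
    linarith

end Pool.Agent.H4.MS
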